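import Pool.Agent.H171R3.AK.Defs

set_option autoImplicit false

namespace Pool.Agent.H285R3.SL

open Real Set H171AK

/-- one-dimensional maximum principle for `g'' + g ≤ 0` on an interval shorter than `π` -/
theorem sinus {D : ℝ} (hD0 : 0 < D) (hD : D < π) (g : ℝ → ℝ) (hg : ContinuousOn g (Icc 0 D))
    (hloc : ∀ x ∈ Ioo 0 D, ∃ h0 > 0, ∀ h, 0 < h → h < h0 → g (x - h) + g (x + h) ≤ 2 * cos h * g x)
    (θ : ℝ) (hθ : θ ∈ Icc 0 D) :
    sin (D - θ) * g 0 + sin θ * g D ≤ sin D * g θ := by
  by_contra hcon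
  push Not at hcon
  have hsD : 0 < sin D := sin_pos_of_pos_of_lt_pi hD0 hD
  obtain ⟨f, hf⟩ : ∃ f : ℝ → ℝ, f = fun x => sin D * g x - (sin (D - x) * g 0 + sin x * g D) :=
    ⟨_, rfl⟩
  have hf0 : f 0 = 0 := by rw [hf]; simp
  have hfD : f D = 0 := by rw [hf]; simp
  have hfθ : f θ < 0 := by rw [hf]; simp only; linarith
  have hfc : ContinuousOn f (Icc 0 D) := by
    rw [hf]
    exact (continuousOn_const.mul hg).sub (by fun_prop)
  have hfloc : ∀ x ∈ Ioo 0 D, ∃ h0 > 0, ∀ h, 0 < h → h < h0 →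
      f (x - h) + f (x + h) ≤ 2 * cos h * f x := by
    intro x hx
    obtain ⟨h0, h0p, hh⟩ := hloc x hx
    refine ⟨h0, h0p, fun h h1 h2 => ?_⟩
    have h3 := hh h h1 h2
    have e1 : sin (x - h) + sin (x + h) = 2 * cos h * sin x := by
      rw [sin_sub, sin_add]; ring
    have e2 : sin (D - (x - h)) + sin (D - (x + h)) = 2 * cos h * sin (D - x) := by
      have a1 : D - (x - h) = (D - x) + h := by ring
      have a2 : D - (x + h) = (D - x) - h := by ring
      rw [a1, a2, sin_sub (D - x), sin_add]; ring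
    rw [hf]
    simp only
    have h4 := mul_le_mul_of_nonneg_left h3 hsD.le
    have e1' := congrArg (fun t => t * g D) e1
    have e2' := congrArg (fun t => t * g 0) e2
    linarith
  obtain ⟨k, hk⟩ : ∃ k : ℝ → ℝ, k = fun x => cos (x - D / 2) := ⟨_, rfl⟩
  have hkpos : ∀ x ∈ Icc 0 D, 0 < k x := by
    intro x hx
    rw [hk]
    apply cos_pos_of_mem_Ioo
    constructor <;> [linarith [hx.1]; linarith [hx.2]]
  have hkloc : ∀ x h : ℝ, k (x - h) + k (x + h) = 2 * cos h * k x := by
    intro x h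
    rw [hk]
    simp only
    have a1 : x - h - D / 2 = (x - D / 2) - h := by ring
    have a2 : x + h - D / 2 = (x - D / 2) + h := by ring
    rw [a1, a2, cos_sub (x - D / 2), cos_add]; ring
  obtain ⟨q, hq⟩ : ∃ q : ℝ → ℝ, q = fun x => f x / k x := ⟨_, rfl⟩
  have hfq : ∀ x ∈ Icc 0 D, f x = q x * k x := by
    intro x hx
    rw [hq]
    simp only
    rw [div_mul_cancel₀ _ (hkpos x hx).ne']
  have hqc : ContinuousOn q (Icc 0 D) := by
    rw [hq]
    refine hfc.div ?_ fun x hx => (hkpos x hx).ne'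
    rw [hk]; fun_prop
  obtain ⟨x1, hx1, hmin⟩ := isCompact_Icc.exists_isMinOn ⟨θ, hθ⟩ hqc
  have hmin' : ∀ x ∈ Icc 0 D, q x1 ≤ q x := fun x hx => hmin hx
  have hm : q x1 < 0 := by
    have h1 : q θ < 0 := by
      rw [hq]; exact div_neg_of_neg_of_pos hfθ (hkpos θ hθ)
    exact (hmin' θ hθ).trans_lt h1
  have hS : IsCompact (Icc 0 D ∩ q ⁻¹' {q x1}) :=
    isCompact_Icc.of_isClosed_subset (hqc.preimage_isClosed_of_isClosed isClosed_Icc
      isClosed_singleton) inter_subset_left
  obtain ⟨x0, ⟨hx0, hx0'⟩, hleast⟩ := hS.exists_isLeast ⟨x1, hx1, rfl⟩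
  have hx0q : q x0 = q x1 := hx0'
  have hx0pos : 0 < x0 := by
    rcases hx0.1.eq_or_lt with h | h
    · exfalso
      rw [← h, hq] at hx0q
      simp only [hf0, zero_div] at hx0q
      rw [hq] at hm
      simp only at hm
      linarith
    · exact h
  have hx0D : x0 < D := by
    rcases hx0.2.eq_or_lt with h | h
    · exfalso
      rw [h, hq] at hx0q
      simp only [hfD, zero_div] at hx0q
      rw [hq] at hm
      simp only at hm
      linarith
    · exact h
  obtain ⟨h0, h0p, hh⟩ := hfloc x0 ⟨hx0pos, hx0D⟩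
  obtain ⟨h, h1, h2, h3, h4⟩ : ∃ h : ℝ, 0 < h ∧ h < h0 ∧ h < x0 ∧ h < D - x0 := by
    refine ⟨min h0 (min x0 (D - x0)) / 2, ?_, ?_, ?_, ?_⟩
    · have : 0 < D - x0 := by linarith
      positivity
    · have := min_le_left h0 (min x0 (D - x0))
      linarith [lt_min h0p (lt_min hx0pos (by linarith : 0 < D - x0))]
    · have := (min_le_right h0 (min x0 (D - x0))).trans (min_le_left _ _)
      linarith [lt_min h0p (lt_min hx0pos (by linarith : 0 < D - x0))]
    · have := (min_le_right h0 (min x0 (D - x0))).trans (min_le_right _ _)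
      linarith [lt_min h0p (lt_min hx0pos (by linarith : 0 < D - x0))]
  have hi1 : x0 - h ∈ Icc 0 D := ⟨by linarith, by linarith⟩
  have hi2 : x0 + h ∈ Icc 0 D := ⟨by linarith, by linarith⟩
  have h5 := hh h h1 h2
  rw [hfq _ hi1, hfq _ hi2, hfq _ hx0, hx0q] at h5
  have h6 : q x1 < q (x0 - h) := by
    refine lt_of_le_of_ne (hmin' _ hi1) fun he => ?_
    have : x0 ≤ x0 - h := hleast ⟨hi1, he.symm⟩
    linarith
  have h7 := hmin' _ hi2
  have h8 := mul_lt_mul_of_pos_right h6 (hkpos _ hi1)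
  have h9 := mul_le_mul_of_nonneg_right h7 (hkpos _ hi2).le
  have h10 := hkloc x0 h
  have h11 : q x1 * (k (x0 - h) + k (x0 + h)) = 2 * cos h * (q x1 * k x0) := by
    rw [h10]; ring
  nlinarith

/-- truncated cosine -/
noncomputable def cc (t : ℝ) : ℝ := cos (min t π)

theorem cc_of_le {t : ℝ} (h : t ≤ π) : cc t = cos t := by rw [cc, min_eq_left h]

theorem cc_of_ge {t : ℝ} (h : π ≤ t) : cc t = -1 := by rw [cc, min_eq_right h, cos_pi]

theorem cc_le {t s : ℝ} (h0 : 0 ≤ s) (hs : s ≤ π) (h : s ≤ t) : cc t ≤ cos s := by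
  rw [cc]
  exact cos_le_cos_of_nonneg_of_le_pi h0 (min_le_right _ _) (le_min h hs)

theorem ci {U : Type*} [MetricSpace U] (hU : IsCAT1 U) (a : U) {D : ℝ} (hD0 : 0 < D) (hD : D < π)
    (γ : ℝ → U) (hγ : ∀ s ∈ Icc 0 D, ∀ t ∈ Icc 0 D, dist (γ s) (γ t) = |s - t|)
    (θ : ℝ) (hθ : θ ∈ Icc 0 D) :
    sin (D - θ) * cc (dist a (γ 0)) + sin θ * cc (dist a (γ D)) ≤ sin D * cc (dist a (γ θ)) := by
  have hγc : ContinuousOn γ (Icc 0 D) := by
    intro s hs
    rw [Metric.continuousWithinAt_iff]
    intro ε hε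
    refine ⟨ε, hε, fun t ht htd => ?_⟩
    rw [hγ t ht s hs]
    rwa [Real.dist_eq] at htd
  refine sinus hD0 hD (fun t => cc (dist a (γ t))) ?_ ?_ θ hθ
  · unfold cc
    have : ContinuousOn (fun t => dist a (γ t)) (Icc 0 D) :=
      (continuous_const.dist continuous_id).comp_continuousOn hγc
    exact (continuous_cos.comp (continuous_id.min continuous_const)).comp_continuousOn this
  · intro x hx
    have hxI : x ∈ Icc 0 D := ⟨hx.1.le, hx.2.le⟩
    rcases le_or_gt π (dist a (γ x)) with hd | hd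
    · refine ⟨min x (D - x), lt_min hx.1 (by linarith [hx.2]), fun h h1 h2 => ?_⟩
      have h3 : h < x := lt_of_lt_of_le h2 (min_le_left _ _)
      have h4 : h < D - x := lt_of_lt_of_le h2 (min_le_right _ _)
      have i1 : x - h ∈ Icc 0 D := ⟨by linarith, by linarith⟩
      have i2 : x + h ∈ Icc 0 D := ⟨by linarith, by linarith⟩
      have d1 : dist (γ (x - h)) (γ x) = h := by
        rw [hγ _ i1 _ hxI]
        have : x - h - x = -h := by ring
        rw [this, abs_neg, abs_of_pos h1]
      have d2 : dist (γ (x + h)) (γ x) = h := by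
        rw [hγ _ i2 _ hxI]
        have : x + h - x = h := by ring
        rw [this, abs_of_pos h1]
      have t1 := dist_triangle a (γ (x - h)) (γ x)
      have t2 := dist_triangle a (γ (x + h)) (γ x)
      have hhπ : h ≤ π := by linarith
      have c1 : cc (dist a (γ (x - h))) ≤ cos (π - h) :=
        cc_le (by linarith) (by linarith) (by linarith)
      have c2 : cc (dist a (γ (x + h))) ≤ cos (π - h) :=
        cc_le (by linarith) (by linarith) (by linarith)
      rw [cos_pi_sub] at c1 c2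
      rw [cc_of_ge hd]
      linarith
    · refine ⟨min (min x (D - x)) ((π - dist a (γ x)) / 2),
        lt_min (lt_min hx.1 (by linarith [hx.2])) (by linarith), fun h h1 h2 => ?_⟩
      have h2' := lt_of_lt_of_le h2 (min_le_left _ _)
      have h3 : h < x := lt_of_lt_of_le h2' (min_le_left _ _)
      have h4 : h < D - x := lt_of_lt_of_le h2' (min_le_right _ _)
      have h5 : h < (π - dist a (γ x)) / 2 := lt_of_lt_of_le h2 (min_le_right _ _)
      have i1 : x - h ∈ Icc 0 D := ⟨by linarith, by linarith⟩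
      have i2 : x + h ∈ Icc 0 D := ⟨by linarith, by linarith⟩
      have d1 : dist (γ (x - h)) (γ x) = h := by
        rw [hγ _ i1 _ hxI]
        have : x - h - x = -h := by ring
        rw [this, abs_neg, abs_of_pos h1]
      have d2 : dist (γ x) (γ (x + h)) = h := by
        rw [hγ _ hxI _ i2]
        have : x - (x + h) = -h := by ring
        rw [this, abs_neg, abs_of_pos h1]
      have d3 : dist (γ (x - h)) (γ (x + h)) = 2 * h := by
        rw [hγ _ i1 _ i2]
        have : x - h - (x + h) = -(2 * h) := by ring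
        rw [this, abs_neg, abs_of_pos (by linarith)]
      have t1 := dist_triangle a (γ x) (γ (x - h))
      have t2 := dist_triangle a (γ x) (γ (x + h))
      rw [dist_comm (γ x) (γ (x - h)), d1] at t1
      rw [d2] at t2
      have hcomp := hU.comp a (γ (x - h)) (γ (x + h)) (γ x) (by
        rw [d3, dist_comm (γ (x + h)) a]; linarith) (by rw [d1, d2, d3]; ring)
      rw [d1, d2, d3] at hcomp
      have hsh : 0 < sin h := sin_pos_of_pos_of_lt_pi h1 (by linarith)
      rw [cc_of_le (t := dist a (γ (x - h))) (by linarith),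
        cc_of_le (t := dist a (γ (x + h))) (by linarith), cc_of_le (t := dist a (γ x)) hd.le]
      rw [sin_two_mul] at hcomp
      have : sin h * (cos (dist a (γ (x - h))) + cos (dist a (γ (x + h))))
          ≤ sin h * (2 * cos h * cos (dist a (γ x))) := by nlinarith
      exact le_of_mul_le_mul_left this hsh

theorem SL {U : Type*} [MetricSpace U] (hU : IsCAT1 U) (r r' : ℝ) (hr : 0 ≤ r) (hr' : 0 ≤ r')
    (u u' : U) :
    ∃ (R : ℝ) (v : U), 0 ≤ R ∧
      R ^ 2 = r ^ 2 + r' ^ 2 + 2 * r * r' * Real.cos (min (dist u u') Real.pi) ∧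
      ∀ a : U, r * Real.cos (min (dist a u) Real.pi) + r' * Real.cos (min (dist a u') Real.pi)
        ≤ R * Real.cos (min (dist a v) Real.pi) := by
  show ∃ (R : ℝ) (v : U), 0 ≤ R ∧ R ^ 2 = r ^ 2 + r' ^ 2 + 2 * r * r' * cc (dist u u') ∧
      ∀ a : U, r * cc (dist a u) + r' * cc (dist a u') ≤ R * cc (dist a v)
  rcases hr.eq_or_lt with h0 | h0
  · subst h0
    exact ⟨r', u', hr', by ring, fun a => by linarith⟩
  rcases hr'.eq_or_lt with h0' | h0'
  · subst h0'
    exact ⟨r, u, hr, by ring, fun a => by linarith⟩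
  rcases (dist_nonneg (x := u) (y := u')).eq_or_lt with hz | hz
  · have : u = u' := dist_eq_zero.1 hz.symm
    subst this
    refine ⟨r + r', u, by positivity, ?_, fun a => by linarith⟩
    rw [dist_self, cc_of_le pi_pos.le, cos_zero]; ring
  rcases lt_or_ge (dist u u') π with hD | hD
  · -- the main case
    obtain ⟨D, hDdef⟩ : ∃ D, D = dist u u' := ⟨_, rfl⟩
    rw [← hDdef] at hz hD ⊢
    obtain ⟨γ, g0, gD, hγ⟩ := hU.geod u u' (by rw [← hDdef]; exact hD)
    rw [← hDdef] at gD hγ
    rw [cc_of_le hD.le]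
    have hsD : 0 < sin D := sin_pos_of_pos_of_lt_pi hz hD
    have hcD : -1 < cos D := by
      rw [← cos_pi]
      exact cos_lt_cos_of_nonneg_of_le_pi hz.le le_rfl hD
    have hpos : 0 < r ^ 2 + r' ^ 2 + 2 * r * r' * cos D := by
      nlinarith [mul_pos h0 h0', sq_nonneg (r - r'), mul_pos (mul_pos h0 h0')
        (by linarith : 0 < 1 + cos D)]
    obtain ⟨R, hR0, hR2⟩ : ∃ R : ℝ, 0 < R ∧ R ^ 2 = r ^ 2 + r' ^ 2 + 2 * r * r' * cos D :=
      ⟨sqrt _, sqrt_pos.2 hpos, sq_sqrt hpos.le⟩
    -- the angle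
    have hsc := sin_sq_add_cos_sq D
    have habs : |(r + r' * cos D) / R| ≤ 1 := by
      rw [abs_div, abs_of_pos hR0, div_le_one hR0]
      apply abs_le_of_sq_le_sq _ hR0.le
      rw [hR2]
      nlinarith [sq_nonneg (r' * sin D)]
    obtain ⟨θ, hθ⟩ : ∃ θ, θ = arccos ((r + r' * cos D) / R) := ⟨_, rfl⟩
    have hcosθ : cos θ = (r + r' * cos D) / R := by
      rw [hθ, cos_arccos (abs_le.1 habs).1 (abs_le.1 habs).2]
    have hθ0 : 0 ≤ θ := by rw [hθ]; exact arccos_nonneg _
    have hθπ : θ ≤ π := by rw [hθ]; exact arccos_le_pi _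
    have hRc : R * cos θ = r + r' * cos D := by rw [hcosθ]; field_simp
    have hRs : R * sin θ = r' * sin D := by
      have h1 : 0 ≤ sin θ := sin_nonneg_of_nonneg_of_le_pi hθ0 hθπ
      have h2 : 0 ≤ r' * sin D := by positivity
      have hT := sin_sq_add_cos_sq θ
      have h3 : (R * sin θ) ^ 2 = (r' * sin D) ^ 2 := by
        linear_combination R ^ 2 * hT + hR2 - (R * cos θ + r + r' * cos D) * hRc - r' ^ 2 * hsc
      exact (sq_eq_sq₀ (by positivity) h2).1 h3
    have hsDθ : R * sin (D - θ) = r * sin D := by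
      rw [sin_sub]
      linear_combination (sin D) * hRc - (cos D) * hRs
    have hθD : θ ≤ D := by
      by_contra hcon
      push Not at hcon
      have : sin (D - θ) < 0 := by
        apply sin_neg_of_neg_of_neg_pi_lt <;> linarith
      nlinarith
    refine ⟨R, γ θ, hR0.le, hR2, fun a => ?_⟩
    have h := ci hU a hz hD γ hγ θ ⟨hθ0, hθD⟩
    rw [g0, gD] at h
    have h' : R * (sin (D - θ) * cc (dist a u) + sin θ * cc (dist a u'))
        ≤ R * (sin D * cc (dist a (γ θ))) := mul_le_mul_of_nonneg_left h hR0.le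
    have e1 : R * (sin (D - θ) * cc (dist a u) + sin θ * cc (dist a u'))
        = sin D * (r * cc (dist a u) + r' * cc (dist a u')) := by
      linear_combination (cc (dist a u)) * hsDθ + (cc (dist a u')) * hRs
    rw [e1] at h'
    have e2 : R * (sin D * cc (dist a (γ θ))) = sin D * (R * cc (dist a (γ θ))) := by ring
    rw [e2] at h'
    exact le_of_mul_le_mul_left h' hsD
  · -- far apart
    rw [cc_of_ge hD]
    have key : ∀ a : U, cc (dist a u) + cc (dist a u') ≤ 0 := by
      intro a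
      have ht := dist_triangle u a u'
      rw [dist_comm u a] at ht
      rcases le_or_gt π (dist a u) with h1 | h1
      · rw [cc_of_ge h1]
        have : cc (dist a u') ≤ 1 := cos_le_one _
        linarith
      · have h2 : cc (dist a u') ≤ cos (π - dist a u) :=
          cc_le (by linarith) (by linarith [dist_nonneg (x := a) (y := u)]) (by linarith)
        rw [cos_pi_sub] at h2
        rw [cc_of_le h1.le]
        linarith
    rcases le_total r' r with h | h
    · refine ⟨r - r', u, by linarith, by ring, fun a => ?_⟩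
      nlinarith [key a]
    · refine ⟨r' - r, u', by linarith, by ring, fun a => ?_⟩
      nlinarith [key a]

end Pool.Agent.H285R3.SL
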