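import Pool.Agent.H680R3.EX.Stmts

set_option autoImplicit false

namespace Pool.Agent.H285R3.Ex680C

open Polynomial Module Pool.Agent.H680R3.EX

theorem Rx_apply {n : ℕ} (x : ℚ) (u : Pr n → ℚ) (c : Fin (n + 1)) :
    Rx x u c = ∑ p : Pr n, u p *
      ((if p.1.2 = c then x ^ (p.1.1 : ℕ) else 0) - (if p.1.1 = c then x ^ (p.1.2 : ℕ) else 0)) :=
  rfl

/-- the coefficient vector as a vector of polynomials -/
noncomputable def Rp {n : ℕ} (u : Pr n → ℚ) (c : Fin (n + 1)) : ℚ[X] :=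
  ∑ p : Pr n, C (u p) *
    ((if p.1.2 = c then X ^ (p.1.1 : ℕ) else 0) - (if p.1.1 = c then X ^ (p.1.2 : ℕ) else 0))

theorem Rp_eval {n : ℕ} (x : ℚ) (u : Pr n → ℚ) (c : Fin (n + 1)) :
    (Rp u c).eval x = Rx x u c := by
  rw [Rx_apply, Rp, eval_finset_sum]
  refine Finset.sum_congr rfl fun p _ => ?_
  rw [eval_mul, eval_C, eval_sub]
  congr 2 <;> split_ifs <;> simp

theorem Rp_coeff {n : ℕ} (u : Pr n → ℚ) (p0 : Pr n) :
    (Rp u p0.1.2).coeff (p0.1.1 : ℕ) = u p0 := by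
  rw [Rp, finset_sum_coeff, Finset.sum_eq_single p0]
  · have h : ¬ (p0.1.1 = p0.1.2) := ne_of_lt p0.2
    simp [h]
  · intro p _ hp
    rw [coeff_C_mul, coeff_sub]
    have h1 : (if p.1.2 = p0.1.2 then (X : ℚ[X]) ^ (p.1.1 : ℕ) else 0).coeff (p0.1.1 : ℕ) = 0 := by
      split_ifs with h
      · rw [coeff_X_pow, if_neg]
        intro h'
        apply hp
        apply Subtype.ext
        exact Prod.ext (Fin.ext h'.symm) h
      · simp
    have h2 : (if p.1.1 = p0.1.2 then (X : ℚ[X]) ^ (p.1.2 : ℕ) else 0).coeff (p0.1.1 : ℕ) = 0 := by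
      split_ifs with h
      · rw [coeff_X_pow, if_neg]
        intro h'
        have a1 := p.2
        have a2 := p0.2
        rw [h] at a1
        have a3 : p0.1.1 = p.1.2 := Fin.ext h'
        rw [a3] at a2
        exact absurd (a1.trans a2) (lt_irrefl _)
      · simp
    rw [h1, h2]; ring
  · simp

theorem Rx_inj {n : ℕ} (u : Pr n → ℚ) {Z : Set ℚ} (hZ : Z.Infinite) (h : ∀ x ∈ Z, Rx x u = 0) :
    u = 0 := by
  funext p0
  have : Rp u p0.1.2 = 0 := by
    apply eq_zero_of_infinite_isRoot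
    refine hZ.mono fun x hx => ?_
    show (Rp u p0.1.2).eval x = 0
    rw [Rp_eval, h x hx]; rfl
  rw [← Rp_coeff u p0, this]; simp

/-- the bilinear form -/
noncomputable def Fx {n : ℕ} (g : Fin (n + 1) → ℚ) (y : ℚ) : ℚ := ∑ c, g c * y ^ (c : ℕ)

theorem Fx_Rx {n : ℕ} (u : Pr n → ℚ) (x y : ℚ) :
    Fx (Rx x u) y = ∑ p : Pr n, u p * (x ^ (p.1.1 : ℕ) * y ^ (p.1.2 : ℕ)
      - x ^ (p.1.2 : ℕ) * y ^ (p.1.1 : ℕ)) := by
  unfold Fx
  simp only [Rx_apply, Finset.sum_mul]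
  rw [Finset.sum_comm]
  refine Finset.sum_congr rfl fun p _ => ?_
  simp only [mul_assoc, sub_mul, mul_sub, Finset.sum_sub_distrib, ite_mul, zero_mul, mul_ite,
    mul_zero, Finset.sum_ite_eq, Finset.mem_univ, if_true]

theorem Fx_antisymm {n : ℕ} (u : Pr n → ℚ) (x y : ℚ) : Fx (Rx x u) y = -Fx (Rx y u) x := by
  rw [Fx_Rx, Fx_Rx, ← Finset.sum_neg_distrib]
  refine Finset.sum_congr rfl fun p _ => ?_
  ring

theorem Fx_finite {n : ℕ} (g : Fin (n + 1) → ℚ) (hg : g ≠ 0) : {y : ℚ | Fx g y = 0}.Finite := by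
  by_contra hcon
  apply hg
  have h1 : (∑ c : Fin (n + 1), C (g c) * X ^ (c : ℕ) : ℚ[X]) = 0 := by
    apply eq_zero_of_infinite_isRoot
    refine Set.Infinite.mono ?_ hcon
    intro y hy
    show eval y _ = 0
    rw [eval_finset_sum]
    simp only [eval_mul, eval_C, eval_pow, eval_X]
    exact hy
  funext c
  have h2 := congrArg (fun p : ℚ[X] => p.coeff (c : ℕ)) h1
  simp only [finset_sum_coeff, coeff_C_mul, coeff_X_pow, coeff_zero] at h2
  rw [Finset.sum_eq_single c] at h2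
  · simpa using h2
  · intro b _ hb
    rw [if_neg, mul_zero]
    intro h
    exact hb (Fin.ext h.symm)
  · simp

theorem taskC : TaskC := by
  intro n p
  induction p with
  | zero =>
    intro Δ Z hZ h
    have : Δ = ⊥ := by
      rw [Submodule.eq_bot_iff]
      intro u hu
      refine Rx_inj u hZ fun x hx => ?_
      have h1 := h x hx
      have h2 : Δ.map (Rx x) = ⊥ := by
        rw [← Submodule.finrank_eq_zero (R := ℚ)]
        omega
      have h3 : Rx x u ∈ Δ.map (Rx x) := Submodule.mem_map_of_mem hu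
      rw [h2] at h3
      simpa using h3
    rw [this]; simp
  | succ p ih =>
    intro Δ Z hZ h
    by_cases hΔ : Δ = ⊥
    · rw [hΔ]; simp
    obtain ⟨us, hus, hus0⟩ := Submodule.exists_mem_ne_zero_of_ne_bot hΔ
    obtain ⟨x0, hx0, hx0'⟩ : ∃ x0 ∈ Z, Rx x0 us ≠ 0 := by
      by_contra hcon
      push Not at hcon
      exact hus0 (Rx_inj us hZ hcon)
    obtain ⟨f, hf⟩ : ∃ f : Δ →ₗ[ℚ] (Fin (n + 1) → ℚ), f = (Rx x0).domRestrict Δ := ⟨_, rfl⟩
    have hrn := LinearMap.finrank_range_add_finrank_ker f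
    have hrange : LinearMap.range f = Δ.map (Rx x0) := by
      rw [hf, LinearMap.range_domRestrict]
    obtain ⟨Δ0, hΔ0⟩ : ∃ Δ0 : Submodule ℚ (Pr n → ℚ), Δ0 = (LinearMap.ker f).map Δ.subtype :=
      ⟨_, rfl⟩
    have hfr : finrank ℚ Δ0 = finrank ℚ (LinearMap.ker f) := by
      rw [hΔ0]
      exact Submodule.finrank_map_subtype_eq Δ (LinearMap.ker f)
    have hmem : ∀ w ∈ Δ0, w ∈ Δ ∧ Rx x0 w = 0 := by
      intro w hw
      rw [hΔ0, Submodule.mem_map] at hw
      obtain ⟨v, hv, rfl⟩ := hw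
      refine ⟨v.2, ?_⟩
      rw [hf, LinearMap.mem_ker] at hv
      exact hv
    have hfin : {y : ℚ | Fx (Rx x0 us) y = 0}.Finite := Fx_finite _ hx0'
    have hZ' : (Z \ {y : ℚ | Fx (Rx x0 us) y = 0}).Infinite := hZ.diff hfin
    have h1 := ih Δ0 _ hZ' (by
      intro x hx
      have hlt : Δ0.map (Rx x) < Δ.map (Rx x) := by
        refine lt_of_le_of_ne (Submodule.map_mono fun w hw => (hmem w hw).1) ?_
        intro he
        have h3 : Rx x us ∈ Δ.map (Rx x) := Submodule.mem_map_of_mem hus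
        rw [← he, Submodule.mem_map] at h3
        obtain ⟨w, hw, hwe⟩ := h3
        apply hx.2
        show Fx (Rx x0 us) x = 0
        rw [Fx_antisymm, ← hwe, ← Fx_antisymm, (hmem w hw).2]
        simp [Fx]
      have h4 := Submodule.finrank_lt_finrank_of_lt hlt
      have h5 := h x hx.1
      omega)
    have h6 := h x0 hx0
    rw [hrange] at hrn
    rw [hfr] at h1
    nlinarith

end Pool.Agent.H285R3.Ex680C
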