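import Pool.Agent.H285R3.Ex680C

set_option autoImplicit false

namespace Pool.Agent.H285R3.Ex680D

open Polynomial Module Pool.Agent.H680R3.EX Pool.Agent.H285R3.Ex680C

/-! ### selection of rows -/

theorem select {K : Type} [Fintype K] {j : ℕ} (w : K → (Fin j → ℚ))
    (hspan : Submodule.span ℚ (Set.range w) = ⊤) (K0 : K → Prop) [DecidablePred K0] (p : ℕ)
    (hp : p ≤ finrank ℚ (Submodule.span ℚ (w '' {k | K0 k}))) :
    ∃ I : Fin j → K, LinearIndependent ℚ (fun b => w (I b)) ∧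
      p ≤ (Finset.univ.filter (fun b => K0 (I b))).card := by
  classical
  obtain ⟨B0, hB0K, -, hB0span, hB0li⟩ :=
    exists_linearIndepOn_extension (linearIndepOn_empty ℚ w) (Set.empty_subset {k | K0 k})
  obtain ⟨B, -, hB0B, hBspan, hBli⟩ :=
    exists_linearIndepOn_extension hB0li (Set.subset_univ B0)
  have hBtop : Submodule.span ℚ (w '' B) = ⊤ := by
    rw [eq_top_iff, ← hspan, Submodule.span_le, ← Set.image_univ]
    exact hBspan
  have hli : LinearIndependent ℚ (fun b : B => w b) := hBli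
  have hcard : Fintype.card B = j := by
    have h1 : (⊤ : Submodule ℚ (Fin j → ℚ)) ≤ Submodule.span ℚ (Set.range fun b : B => w b) := by
      rw [← hBtop]
      apply Submodule.span_mono
      rintro _ ⟨k, hk, rfl⟩
      exact ⟨⟨k, hk⟩, rfl⟩
    have h2 := finrank_eq_card_basis (Basis.mk hli h1)
    rw [finrank_fin_fun] at h2
    exact h2.symm
  have e : Fin j ≃ B := (Fintype.equivFinOfCardEq hcard).symm
  refine ⟨fun b => (e b : K), hli.comp e e.injective, ?_⟩
  have h3 : finrank ℚ (Submodule.span ℚ (w '' {k | K0 k})) ≤ Fintype.card B0 := by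
    have h4 : Submodule.span ℚ (w '' {k | K0 k}) ≤ Submodule.span ℚ (Set.range fun b : B0 => w b) := by
      rw [Submodule.span_le]
      refine hB0span.trans ?_
      apply Submodule.span_mono
      rintro _ ⟨k, hk, rfl⟩
      exact ⟨⟨k, hk⟩, rfl⟩
    exact (Submodule.finrank_mono h4).trans (finrank_range_le_card (fun b : B0 => w b))
  refine hp.trans (h3.trans ?_)
  rw [← Finset.card_univ]
  refine Finset.card_le_card_of_injOn (fun b : B0 => e.symm ⟨b, hB0B b.2⟩) ?_ ?_
  · intro b _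
    simp only [Finset.coe_filter, Finset.mem_univ, true_and, Set.mem_setOf_eq,
      Equiv.apply_symm_apply]
    exact hB0K b.2
  · intro b _ b' _ h
    have := e.symm.injective h
    exact Subtype.ext (congrArg (fun t : B => (t : K)) this)

/-! ### values at a rational point -/

/-- evaluation at `x` -/
noncomputable def ev (x : ℚ) : ℤ[X] →+* ℚ := eval₂RingHom (Int.castRingHom ℚ) x

theorem ev_MM {n : ℕ} (x : ℚ) (k a : Fin (n + 1)) :
    ev x (MM k a) = ((a : ℕ).choose (k : ℕ) : ℚ) * x ^ ((a : ℕ) - (k : ℕ)) := by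
  unfold ev MM
  simp

/-- linear form at `x` -/
noncomputable def ell {n : ℕ} (x : ℚ) (k : Pr n) : (Pr n → ℚ) →ₗ[ℚ] ℚ where
  toFun u := ∑ i, u i * ev x (AA k i)
  map_add' u v := by simp [add_mul, Finset.sum_add_distrib]
  map_smul' r u := by simp [Finset.mul_sum, mul_assoc]

theorem ell_apply {n : ℕ} (x : ℚ) (k : Pr n) (u : Pr n → ℚ) :
    ell x k u = ∑ i, u i * ev x (AA k i) := rfl

theorem ev_Lf {n : ℕ} (x : ℚ) (k : Pr n) (u : Pr n → ℤ) :
    ev x (Lf AA k u) = ell x k (fun i => (u i : ℚ)) := by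
  unfold Lf
  rw [ell_apply, map_sum]
  refine Finset.sum_congr rfl fun i _ => ?_
  rw [map_mul]
  congr 1
  simp [ev]

theorem binom {n : ℕ} (x s : ℚ) (a : Fin (n + 1)) :
    (x + s) ^ (a : ℕ) = ∑ k : Fin (n + 1), ev x (MM k a) * s ^ (k : ℕ) := by
  rw [add_comm, add_pow]
  have h1 : ∑ k : Fin (n + 1), ev x (MM k a) * s ^ (k : ℕ)
      = ∑ k ∈ Finset.range (n + 1), ((a : ℕ).choose k : ℚ) * x ^ ((a : ℕ) - k) * s ^ k := by
    rw [Finset.sum_range]
    refine Finset.sum_congr rfl fun k _ => ?_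
    rw [ev_MM]
  rw [h1]
  have h2 : Finset.range ((a : ℕ) + 1) ⊆ Finset.range (n + 1) := by
    intro k hk
    rw [Finset.mem_range] at hk ⊢
    have := a.2
    omega
  rw [← Finset.sum_subset h2]
  · refine Finset.sum_congr rfl fun k _ => ?_
    ring
  · intro k _ hk
    rw [Finset.mem_range, not_lt] at hk
    rw [Nat.choose_eq_zero_of_lt (by omega)]
    simp

theorem pair_sum {N : ℕ} (f : Fin N → Fin N → ℚ) (hd : ∀ k, f k k = 0) :
    ∑ k, ∑ m, f k m =
      ∑ q : {p : Fin N × Fin N // p.1 < p.2}, (f q.1.1 q.1.2 + f q.1.2 q.1.1) := by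
  have h1 : ∑ q : {p : Fin N × Fin N // p.1 < p.2}, (f q.1.1 q.1.2 + f q.1.2 q.1.1)
      = ∑ p : Fin N × Fin N, if p.1 < p.2 then f p.1 p.2 + f p.2 p.1 else 0 := by
    rw [← Finset.sum_filter]
    rw [Finset.sum_subtype (p := fun p : Fin N × Fin N => p.1 < p.2)
      (Finset.univ.filter fun p : Fin N × Fin N => p.1 < p.2) (by simp)
      (fun p => f p.1 p.2 + f p.2 p.1)]
  rw [h1]
  have h2 : ∑ p : Fin N × Fin N, (if p.1 < p.2 then f p.1 p.2 + f p.2 p.1 else 0)
      = (∑ p : Fin N × Fin N, if p.1 < p.2 then f p.1 p.2 else 0)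
        + ∑ p : Fin N × Fin N, if p.1 < p.2 then f p.2 p.1 else 0 := by
    rw [← Finset.sum_add_distrib]
    refine Finset.sum_congr rfl fun p _ => ?_
    split_ifs <;> simp
  have h3 : (∑ p : Fin N × Fin N, if p.1 < p.2 then f p.2 p.1 else 0)
      = ∑ p : Fin N × Fin N, if p.2 < p.1 then f p.1 p.2 else 0 := by
    rw [← Equiv.sum_comp (Equiv.prodComm (Fin N) (Fin N))]
    rfl
  rw [h2, h3, ← Finset.sum_add_distrib, ← Fintype.sum_prod_type']
  refine Finset.sum_congr rfl fun p _ => ?_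
  rcases lt_trichotomy p.1 p.2 with h | h | h
  · rw [if_pos h, if_neg (not_lt.2 h.le), add_zero]
  · rw [h, hd]; simp
  · rw [if_neg (not_lt.2 h.le), if_pos h, zero_add]

theorem key_identity {n : ℕ} (u : Pr n → ℚ) (x s t : ℚ) :
    Fx (Rx (x + s) u) (x + t) = ∑ k : Pr n, ell x k u *
      (s ^ (k.1.1 : ℕ) * t ^ (k.1.2 : ℕ) - s ^ (k.1.2 : ℕ) * t ^ (k.1.1 : ℕ)) := by
  rw [Fx_Rx]
  have h1 : ∀ p : Pr n, (x + s) ^ (p.1.1 : ℕ) * (x + t) ^ (p.1.2 : ℕ)
      - (x + s) ^ (p.1.2 : ℕ) * (x + t) ^ (p.1.1 : ℕ)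
      = ∑ k : Pr n, ev x (AA k p) *
        (s ^ (k.1.1 : ℕ) * t ^ (k.1.2 : ℕ) - s ^ (k.1.2 : ℕ) * t ^ (k.1.1 : ℕ)) := by
    intro p
    rw [binom x s p.1.1, binom x t p.1.2, binom x s p.1.2, binom x t p.1.1,
      Finset.sum_mul_sum, Finset.sum_mul_sum, ← Finset.sum_sub_distrib]
    have h2 : ∀ k : Fin (n + 1), ((∑ m : Fin (n + 1), ev x (MM k p.1.1) * s ^ (k : ℕ) *
        (ev x (MM m p.1.2) * t ^ (m : ℕ))) - ∑ m : Fin (n + 1), ev x (MM k p.1.2) * s ^ (k : ℕ) *
        (ev x (MM m p.1.1) * t ^ (m : ℕ)))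
        = ∑ m : Fin (n + 1), (ev x (MM k p.1.1) * ev x (MM m p.1.2)
          - ev x (MM k p.1.2) * ev x (MM m p.1.1)) * (s ^ (k : ℕ) * t ^ (m : ℕ)) := by
      intro k
      rw [← Finset.sum_sub_distrib]
      refine Finset.sum_congr rfl fun m _ => ?_
      ring
    rw [Finset.sum_congr rfl fun k _ => h2 k, pair_sum _ (by intro k; ring)]
    refine Finset.sum_congr rfl fun k _ => ?_
    unfold AA
    rw [map_sub, map_mul, map_mul]
    ring
  simp only [h1, ell_apply, Finset.mul_sum, Finset.sum_mul]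
  rw [Finset.sum_comm]
  refine Finset.sum_congr rfl fun k _ => Finset.sum_congr rfl fun p _ => ?_
  ring

theorem ell_joint {n : ℕ} (x : ℚ) (u : Pr n → ℚ) (h : ∀ k, ell x k u = 0) : u = 0 := by
  refine Rx_inj u Set.infinite_univ fun y _ => ?_
  by_contra hne
  have hfin := Fx_finite _ hne
  have : {z : ℚ | Fx (Rx y u) z = 0} = Set.univ := by
    ext z
    simp only [Set.mem_setOf_eq, Set.mem_univ, iff_true]
    have h1 := key_identity u x (y - x) (z - x)
    simp only [add_sub_cancel, h, zero_mul, Finset.sum_const_zero] at h1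
    exact h1
  rw [this] at hfin
  exact Set.infinite_univ hfin

/-- Taylor coefficients of the one-variable polynomial -/
noncomputable def Ty {n : ℕ} (x : ℚ) (g : Fin (n + 1) → ℚ) (l : Fin (n + 1)) : ℚ :=
  ∑ c, g c * ev x (MM l c)

theorem Ty_inj {n : ℕ} (x : ℚ) (g : Fin (n + 1) → ℚ) (h : ∀ l, Ty x g l = 0) : g = 0 := by
  by_contra hne
  have hfin := Fx_finite _ hne
  have : {z : ℚ | Fx g z = 0} = Set.univ := by
    ext z
    simp only [Set.mem_setOf_eq, Set.mem_univ, iff_true]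
    have h1 : Fx g z = ∑ l, Ty x g l * (z - x) ^ (l : ℕ) := by
      unfold Fx Ty
      simp only [Finset.sum_mul]
      rw [Finset.sum_comm]
      refine Finset.sum_congr rfl fun c _ => ?_
      have h2 := binom x (z - x) c
      rw [add_sub_cancel] at h2
      rw [h2, Finset.mul_sum]
      refine Finset.sum_congr rfl fun l _ => ?_
      ring
    rw [h1]
    simp [h]
  rw [this] at hfin
  exact Set.infinite_univ hfin

theorem ev_MM_zero {n : ℕ} (x : ℚ) (a : Fin (n + 1)) : ev x (MM 0 a) = x ^ (a : ℕ) := by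
  rw [ev_MM]; simp

theorem Ty_Rx {n : ℕ} (x : ℚ) (u : Pr n → ℚ) (l : Fin (n + 1)) :
    Ty x (Rx x u) l = ∑ p : Pr n, u p * (ev x (MM 0 p.1.1) * ev x (MM l p.1.2)
      - ev x (MM 0 p.1.2) * ev x (MM l p.1.1)) := by
  unfold Ty
  simp only [Rx_apply, Finset.sum_mul, ev_MM_zero]
  rw [Finset.sum_comm]
  refine Finset.sum_congr rfl fun p _ => ?_
  simp only [mul_assoc, sub_mul, mul_sub, Finset.sum_sub_distrib, ite_mul, zero_mul, mul_ite,
    mul_zero, Finset.sum_ite_eq, Finset.mem_univ, if_true]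

theorem Ty_Rx_zero {n : ℕ} (x : ℚ) (u : Pr n → ℚ) : Ty x (Rx x u) 0 = 0 := by
  rw [Ty_Rx]
  refine Finset.sum_eq_zero fun p _ => ?_
  ring

theorem Ty_Rx_ell {n : ℕ} (x : ℚ) (u : Pr n → ℚ) (k : Pr n) (hk : k.1.1 = 0) :
    Ty x (Rx x u) k.1.2 = ell x k u := by
  rw [Ty_Rx, ell_apply]
  refine Finset.sum_congr rfl fun p _ => ?_
  unfold AA
  rw [map_sub, map_mul, map_mul, hk]


theorem Fx_self {n : ℕ} (u : Pr n → ℚ) (x : ℚ) : Fx (Rx x u) x = 0 := by
  have := Fx_antisymm u x x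
  linarith

theorem map_le {n : ℕ} (Δ : Submodule ℚ (Pr n → ℚ)) (x : ℚ) : finrank ℚ (Δ.map (Rx x)) ≤ n := by
  by_contra hcon
  push Not at hcon
  have h1 : finrank ℚ (Δ.map (Rx x)) ≤ n + 1 := by
    have := Submodule.finrank_le (Δ.map (Rx x))
    rwa [finrank_fin_fun] at this
  have h2 : Δ.map (Rx x) = ⊤ := by
    apply Submodule.eq_top_of_finrank_eq
    rw [finrank_fin_fun]; omega
  have h3 : (Pi.single 0 1 : Fin (n + 1) → ℚ) ∈ Δ.map (Rx x) := by rw [h2]; trivial
  obtain ⟨u, -, hu⟩ := Submodule.mem_map.1 h3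
  have h4 := Fx_self u x
  rw [hu] at h4
  unfold Fx at h4
  rw [Finset.sum_eq_single (0 : Fin (n + 1))] at h4
  · simp at h4
  · intro b _ hb
    simp [hb]
  · simp

theorem exists_max {α : Type} [Nonempty α] (m : α → ℕ) (B : ℕ) (h : ∀ x, m x ≤ B) :
    ∃ x, ∀ y, m y ≤ m x := by
  obtain ⟨x, hx⟩ := Nat.sSup_mem (Set.range_nonempty m) ⟨B, by rintro _ ⟨x, rfl⟩; exact h x⟩
  refine ⟨x, fun y => ?_⟩
  rw [hx]
  exact le_csSup ⟨B, by rintro _ ⟨x, rfl⟩; exact h x⟩ ⟨y, rfl⟩

theorem taskD : TaskD := by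
  intro n hn j hj v hv
  classical
  obtain ⟨vq, hvq⟩ : ∃ vq : Fin j → (Pr n → ℚ), vq = fun a i => (v a i : ℚ) := ⟨_, rfl⟩
  rw [← hvq] at hv
  obtain ⟨Δ, hΔdef⟩ : ∃ Δ : Submodule ℚ (Pr n → ℚ), Δ = Submodule.span ℚ (Set.range vq) := ⟨_, rfl⟩
  have hΔ : finrank ℚ Δ = j := by rw [hΔdef, finrank_span_eq_card hv, Fintype.card_fin]
  obtain ⟨x, hx⟩ := exists_max (fun x : ℚ => finrank ℚ (Δ.map (Rx x))) n (fun x => map_le Δ x)
  obtain ⟨p, hp⟩ : ∃ p, p = finrank ℚ (Δ.map (Rx x)) := ⟨_, rfl⟩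
  have hC := taskC n p Δ Set.univ Set.infinite_univ (fun y _ => by rw [hp]; exact hx y)
  rw [hΔ] at hC
  have hpn : p ≤ n := by rw [hp]; exact map_le Δ x
  obtain ⟨w, hw⟩ : ∃ w : Pr n → (Fin j → ℚ), w = fun k a => ell x k (vq a) := ⟨_, rfl⟩
  -- the rows span
  have hspan : Submodule.span ℚ (Set.range w) = ⊤ := by
    by_contra hne
    obtain ⟨f, hf0, hf⟩ := Submodule.exists_le_ker_of_lt_top _ (lt_top_iff_ne_top.2 hne)
    apply hf0
    have h1 : ∀ g : Fin j → ℚ, f g = ∑ a, g a * f (Pi.single a 1) := by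
      intro g
      conv_lhs => rw [← Finset.univ_sum_single g]
      rw [map_sum]
      refine Finset.sum_congr rfl fun a _ => ?_
      have : (Pi.single a (g a) : Fin j → ℚ) = g a • Pi.single a 1 := by
        rw [← Pi.single_smul, smul_eq_mul, mul_one]
      rw [this, map_smul, smul_eq_mul]
    have h2 : (∑ a, f (Pi.single a 1) • vq a) = 0 := by
      apply ell_joint x
      intro k
      rw [map_sum]
      have h3 : f (w k) = 0 := hf (Submodule.subset_span ⟨k, rfl⟩)
      rw [h1, hw] at h3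
      rw [← h3]
      refine Finset.sum_congr rfl fun a _ => ?_
      rw [map_smul, smul_eq_mul, mul_comm]
    have h4 := Fintype.linearIndependent_iff.1 hv _ h2
    apply LinearMap.ext
    intro g
    rw [h1]
    simp [h4]
  -- the rank of the zero type rows
  have hrank : p ≤ finrank ℚ (Submodule.span ℚ (w '' {k | k.1.1 = 0})) := by
    obtain ⟨W, hW⟩ : ∃ W : Matrix {k : Pr n // k.1.1 = 0} (Fin j) ℚ,
        W = Matrix.of fun k a => ell x k.1 (vq a) := ⟨_, rfl⟩
    have hrow : Set.range W.row = w '' {k | k.1.1 = 0} := by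
      ext g
      constructor
      · rintro ⟨k, rfl⟩
        refine ⟨k.1, k.2, ?_⟩
        rw [hw, hW]; rfl
      · rintro ⟨k, hk, rfl⟩
        refine ⟨⟨k, hk⟩, ?_⟩
        rw [hw, hW]; rfl
    rw [← hrow, ← Matrix.rank_eq_finrank_span_row, Matrix.rank]
    obtain ⟨Φ, hΦ⟩ : ∃ Φ : (Fin j → ℚ) →ₗ[ℚ] (Fin (n + 1) → ℚ),
        Φ = (Rx x).comp (Fintype.linearCombination ℚ vq) := ⟨_, rfl⟩
    have hrΦ : LinearMap.range Φ = Δ.map (Rx x) := by
      rw [hΦ, LinearMap.range_comp, Fintype.range_linearCombination, hΔdef]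
    have hker : LinearMap.ker W.mulVecLin ≤ LinearMap.ker Φ := by
      intro c hc
      rw [LinearMap.mem_ker] at hc ⊢
      rw [hΦ]
      show Rx x (Fintype.linearCombination ℚ vq c) = 0
      apply Ty_inj x
      intro l
      by_cases hl : l = 0
      · rw [hl]; exact Ty_Rx_zero x _
      · have hlt : (0 : Fin (n + 1)) < l := Fin.pos_iff_ne_zero.2 hl
        have h5 := congrFun hc ⟨⟨(0, l), hlt⟩, rfl⟩
        have h6 := Ty_Rx_ell x (Fintype.linearCombination ℚ vq c) ⟨(0, l), hlt⟩ rfl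
        simp only at h6
        rw [h6, Fintype.linearCombination_apply, map_sum]
        rw [Matrix.mulVecLin_apply, hW] at h5
        simp only [Matrix.mulVec, dotProduct, Matrix.of_apply, Pi.zero_apply] at h5
        rw [← h5]
        refine Finset.sum_congr rfl fun a _ => ?_
        rw [map_smul, smul_eq_mul, mul_comm]
    have h7 := LinearMap.finrank_range_add_finrank_ker W.mulVecLin
    have h8 := LinearMap.finrank_range_add_finrank_ker Φ
    have h9 := Submodule.finrank_mono hker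
    rw [hrΦ, ← hp] at h8
    omega
  obtain ⟨I, hI, hcard⟩ := select w hspan (fun k => k.1.1 = 0) p hrank
  refine ⟨I, ?_, ?_⟩
  · intro hdet
    have h1 := congrArg (ev x) hdet
    rw [map_zero, RingHom.map_det] at h1
    have h2 : (ev x).mapMatrix (Matrix.of fun a b : Fin j => Lf AA (I b) (v a))
        = (Matrix.of fun b : Fin j => w (I b)).transpose := by
      ext a b
      simp only [RingHom.mapMatrix_apply, Matrix.map_apply, Matrix.of_apply, Matrix.transpose_apply]
      rw [ev_Lf, hw, hvq]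
    rw [h2, Matrix.det_transpose] at h1
    have h3 : IsUnit (Matrix.of fun b : Fin j => w (I b)) :=
      Matrix.linearIndependent_rows_iff_isUnit.1 hI
    rw [Matrix.isUnit_iff_isUnit_det, h1] at h3
    exact not_isUnit_zero h3
  · have hp1 : 1 ≤ p := by
      rcases Nat.eq_zero_or_pos p with h | h
      · rw [h] at hC; omega
      · exact h
    rcases lt_or_eq_of_le hpn with h | h
    · left
      have h1 : (n + 1) * p ≤ (n + 1) * (Finset.univ.filter (fun b : Fin j => (I b).1.1 = 0)).card :=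
        Nat.mul_le_mul_left _ hcard
      nlinarith
    · by_cases h2 : 2 * j + 1 ≤ (n + 1) * n
      · left
        have h1 : (n + 1) * p ≤ (n + 1) * (Finset.univ.filter (fun b : Fin j => (I b).1.1 = 0)).card :=
          Nat.mul_le_mul_left _ hcard
        rw [h] at h1
        omega
      · right
        apply le_antisymm
        · have h3 := hv.fintype_card_le_finrank
          rwa [Fintype.card_fin, finrank_fintype_fun_eq_card] at h3
        · have h3 := taskC n n ⊤ Set.univ Set.infinite_univ (fun y _ => map_le ⊤ y)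
          rw [finrank_top, finrank_fintype_fun_eq_card] at h3
          have h4 : n * (n + 1) = (n + 1) * n := by ring
          omega

end Pool.Agent.H285R3.Ex680D
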