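import Pool.Agent.H285R3.Ex680D

set_option autoImplicit false

namespace Pool.Agent.H285R3.Ex680E

open Polynomial Module MeasureTheory Set Pool.Agent.H680R3.EX Pool.Agent.H285R3.Ex680C
  Pool.Agent.H285R3.Ex680D
open Pool.Agent.Helper404 (toP castQ kmC kmC_nonneg)

theorem pair_sumR {N : ℕ} (f : Fin N → Fin N → ℝ) (hd : ∀ k, f k k = 0) :
    ∑ k, ∑ m, f k m =
      ∑ q : {p : Fin N × Fin N // p.1 < p.2}, (f q.1.1 q.1.2 + f q.1.2 q.1.1) := by
  have h1 : ∑ q : {p : Fin N × Fin N // p.1 < p.2}, (f q.1.1 q.1.2 + f q.1.2 q.1.1)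
      = ∑ p : Fin N × Fin N, if p.1 < p.2 then f p.1 p.2 + f p.2 p.1 else 0 := by
    rw [← Finset.sum_filter]
    rw [Finset.sum_subtype (p := fun p : Fin N × Fin N => p.1 < p.2)
      (Finset.univ.filter fun p : Fin N × Fin N => p.1 < p.2) (by simp)
      (fun p => f p.1 p.2 + f p.2 p.1)]
  rw [h1]
  have h2 : ∑ p : Fin N × Fin N, (if p.1 < p.2 then f p.1 p.2 + f p.2 p.1 else 0)
      = (∑ p : Fin N × Fin N, if p.1 < p.2 then f p.1 p.2 else 0)
        + ∑ p : Fin N × Fin N, if p.1 < p.2 then f p.2 p.1 else 0 := by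
    rw [← Finset.sum_add_distrib]
    refine Finset.sum_congr rfl fun p _ => ?_
    split_ifs <;> simp
  have h3 : (∑ p : Fin N × Fin N, if p.1 < p.2 then f p.2 p.1 else 0)
      = ∑ p : Fin N × Fin N, if p.2 < p.1 then f p.1 p.2 else 0 := by
    rw [← Equiv.sum_comp (Equiv.prodComm (Fin N) (Fin N))]
    rfl
  rw [h2, h3, ← Finset.sum_add_distrib, ← Fintype.sum_prod_type']
  refine Finset.sum_congr rfl fun p _ => ?_
  rcases lt_trichotomy p.1 p.2 with h | h | h
  · rw [if_pos h, if_neg (not_lt.2 h.le), add_zero]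
  · rw [h, hd]; simp
  · rw [if_neg (not_lt.2 h.le), if_pos h, zero_add]

/-- entries of the Taylor shift matrix at a real point -/
noncomputable def mm {n : ℕ} (z : ℝ) (k a : Fin (n + 1)) : ℝ :=
  ((a : ℕ).choose (k : ℕ) : ℝ) * z ^ ((a : ℕ) - (k : ℕ))

theorem eval_MM {n : ℕ} (z : ℝ) (k a : Fin (n + 1)) :
    ((MM k a).map (Int.castRingHom ℝ)).eval z = mm z k a := by
  unfold MM mm
  simp

theorem DD_eq {n : ℕ} (z : ℝ) (k : Fin (n + 1)) (P : Fin (n + 1) → ℤ) :
    DD (k : ℕ) P z = ∑ a, (P a : ℝ) * mm z k a := by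
  unfold DD toP
  rw [map_sum, Polynomial.map_sum, eval_finsetSum]
  refine Finset.sum_congr rfl fun a _ => ?_
  rw [C_mul_X_pow_eq_monomial, hasseDeriv_monomial]
  simp only [map_monomial, eval_monomial, map_mul, map_natCast, eq_intCast]
  unfold mm
  ring

theorem eval_Lf {n : ℕ} (z : ℝ) (k : Pr n) (P Q : Fin (n + 1) → ℤ) :
    ((Lf AA k (fun q => P q.1.1 * Q q.1.2 - P q.1.2 * Q q.1.1)).map (Int.castRingHom ℝ)).eval z
      = DD (k.1.1 : ℕ) P z * DD (k.1.2 : ℕ) Q z - DD (k.1.2 : ℕ) P z * DD (k.1.1 : ℕ) Q z := by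
  have h1 : ((Lf AA k (fun q => P q.1.1 * Q q.1.2 - P q.1.2 * Q q.1.1)).map
      (Int.castRingHom ℝ)).eval z = ∑ q : Pr n, ((P q.1.1 : ℝ) * Q q.1.2 - P q.1.2 * Q q.1.1) *
        (mm z k.1.1 q.1.1 * mm z k.1.2 q.1.2 - mm z k.1.1 q.1.2 * mm z k.1.2 q.1.1) := by
    unfold Lf
    rw [Polynomial.map_sum, eval_finsetSum]
    refine Finset.sum_congr rfl fun q _ => ?_
    unfold AA
    rw [Polynomial.map_mul, Polynomial.map_sub, Polynomial.map_mul, Polynomial.map_mul, eval_mul,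
      eval_sub, eval_mul, eval_mul, eval_MM, eval_MM, eval_MM, eval_MM]
    simp
  rw [h1, DD_eq, DD_eq, DD_eq, DD_eq]
  have h2 : (∑ a, (P a : ℝ) * mm z k.1.1 a) * (∑ a, (Q a : ℝ) * mm z k.1.2 a)
      - (∑ a, (P a : ℝ) * mm z k.1.2 a) * (∑ a, (Q a : ℝ) * mm z k.1.1 a)
      = ∑ a, ∑ b, ((P a : ℝ) * Q b - P b * Q a) * (mm z k.1.1 a * mm z k.1.2 b) := by
    rw [Finset.sum_mul_sum, mul_comm (∑ a, (P a : ℝ) * mm z k.1.2 a), Finset.sum_mul_sum,
      ← Finset.sum_sub_distrib]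
    refine Finset.sum_congr rfl fun a _ => ?_
    rw [← Finset.sum_sub_distrib]
    refine Finset.sum_congr rfl fun b _ => ?_
    ring
  rw [h2, pair_sumR _ (by intro a; ring)]
  refine Finset.sum_congr rfl fun q _ => ?_
  ring

theorem mm_le {n : ℕ} (z : ℝ) (hz : |z| ≤ 2) (k a : Fin (n + 1)) : |mm z k a| ≤ 4 ^ n := by
  unfold mm
  rw [abs_mul, abs_pow, Nat.abs_cast]
  have ha : (a : ℕ) ≤ n := by have := a.2; omega
  have h1 : (((a : ℕ).choose (k : ℕ) : ℕ) : ℝ) ≤ 2 ^ n := by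
    have h2 : (a : ℕ).choose (k : ℕ) ≤ 2 ^ (a : ℕ) := Nat.choose_le_two_pow _ _
    have h3 : 2 ^ (a : ℕ) ≤ 2 ^ n := Nat.pow_le_pow_right (by norm_num) ha
    exact_mod_cast h2.trans h3
  have h2 : |z| ^ ((a : ℕ) - (k : ℕ)) ≤ 2 ^ n := by
    calc |z| ^ ((a : ℕ) - (k : ℕ)) ≤ 2 ^ ((a : ℕ) - (k : ℕ)) := by gcongr
      _ ≤ 2 ^ n := pow_le_pow_right₀ (by norm_num) (by omega)
  calc (((a : ℕ).choose (k : ℕ) : ℕ) : ℝ) * |z| ^ ((a : ℕ) - (k : ℕ)) ≤ 2 ^ n * 2 ^ n := by gcongr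
    _ = 4 ^ n := by rw [← mul_pow]; norm_num

theorem DD_le {n : ℕ} (z : ℝ) (hz : |z| ≤ 2) (k : Fin (n + 1)) (P : Fin (n + 1) → ℤ) (H : ℝ)
    (hP : ∀ i, |(P i : ℝ)| ≤ H) : |DD (k : ℕ) P z| ≤ ((n + 1) * 4 ^ n) * H := by
  have hH : 0 ≤ H := (abs_nonneg _).trans (hP 0)
  rw [DD_eq]
  calc |∑ a, (P a : ℝ) * mm z k a| ≤ ∑ a, |(P a : ℝ) * mm z k a| := Finset.abs_sum_le_sum_abs _ _
    _ ≤ ∑ _a : Fin (n + 1), H * 4 ^ n := by
        refine Finset.sum_le_sum fun a _ => ?_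
        rw [abs_mul]
        exact mul_le_mul (hP a) (mm_le z hz k a) (abs_nonneg _) hH
    _ = ((n + 1) * 4 ^ n) * H := by
        rw [Finset.sum_const, Finset.card_univ, Fintype.card_fin, nsmul_eq_mul]
        push_cast; ring

theorem AA_deg {n : ℕ} (k a : Pr n) : (AA k a).natDegree ≤ 2 * n := by
  have hM : ∀ i j : Fin (n + 1), (MM i j).natDegree ≤ n := by
    intro i j
    unfold MM
    refine (natDegree_C_mul_X_pow_le _ _).trans ?_
    have := j.2
    omega
  unfold AA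
  refine (natDegree_sub_le _ _).trans (max_le ?_ ?_)
  · refine natDegree_mul_le.trans ?_
    have := hM k.1.1 a.1.1
    have := hM k.1.2 a.1.2
    omega
  · refine natDegree_mul_le.trans ?_
    have := hM k.1.1 a.1.2
    have := hM k.1.2 a.1.1
    omega

theorem card_Pr_le (n : ℕ) : 2 * Fintype.card (Pr n) ≤ n * (n + 1) := by
  have h3 := taskC n n ⊤ Set.univ Set.infinite_univ (fun y _ => map_le ⊤ y)
  rwa [finrank_top, finrank_fintype_fun_eq_card] at h3


/-- product of the weights -/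
theorem prod_weights {n j : ℕ} (c : Pr n → ℝ) (X : ℝ) (hX : 0 < X) (I : Fin j → Pr n) :
    ∏ b, (c (I b) * X ^ 2 / (if (I b).1.1 = 0 then X ^ (n + 1) else 1))
      = (∏ b, c (I b)) * (X ^ (2 * j) /
        X ^ ((n + 1) * (Finset.univ.filter (fun b : Fin j => (I b).1.1 = 0)).card)) := by
  rw [Finset.prod_div_distrib, Finset.prod_mul_distrib, Finset.prod_const, Finset.card_univ,
    Fintype.card_fin, Finset.prod_ite, Finset.prod_const, Finset.prod_const_one, mul_one,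
    ← pow_mul, ← pow_mul, mul_div_assoc]

theorem taskE_of (hB : TaskB) : TaskE := by
  intro n hn ε A hε hA
  classical
  obtain ⟨N, hN⟩ : ∃ N, N = Fintype.card (Pr n) := ⟨_, rfl⟩
  have h01 : (0 : Fin (n + 1)) < 1 := by
    rw [Fin.lt_def]
    simp only [Fin.val_zero]
    have : ((1 : Fin (n + 1)) : ℕ) = 1 := by
      rw [Fin.val_one']
      exact Nat.mod_eq_of_lt (by omega)
    omega
  obtain ⟨k01, hk01⟩ : ∃ k01 : Pr n, k01 = ⟨(0, 1), h01⟩ := ⟨_, rfl⟩
  have hne : Nonempty (Pr n) := ⟨k01⟩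
  have hN1 : 1 ≤ N := by rw [hN]; exact Fintype.card_pos
  have hNR : (1 : ℝ) ≤ N := by exact_mod_cast hN1
  have hNd : 0 < N * (2 * n) := Nat.mul_pos (by omega) (by omega)
  -- constants
  obtain ⟨K, hK⟩ : ∃ K, K = kmC (4 * (((N * (2 * n) : ℕ) : ℝ) + 1) ^ 2) N := ⟨_, rfl⟩
  have hK0 : 0 ≤ K := by rw [hK]; exact kmC_nonneg (by positivity) _
  obtain ⟨τ, hτ⟩ : ∃ τ, τ = min 1 (ε / (3 * K + 1)) := ⟨_, rfl⟩
  have hτ0 : 0 < τ := by rw [hτ]; positivity
  have hτ1 : τ ≤ 1 := by rw [hτ]; exact min_le_left _ _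
  have hτK : K * τ * 3 ≤ ε := by
    have h1 : τ ≤ ε / (3 * K + 1) := by rw [hτ]; exact min_le_right _ _
    rw [le_div_iff₀ (by positivity)] at h1
    nlinarith
  obtain ⟨e, he⟩ : ∃ e, e = τ ^ (N * (2 * n)) := ⟨_, rfl⟩
  have he0 : 0 < e := by rw [he]; positivity
  have he1 : e ≤ 1 := by rw [he]; exact pow_le_one₀ hτ0.le hτ1
  have heτ : e ^ (1 / ((N * (2 * n) : ℕ) : ℝ)) = τ := by
    rw [he, one_div]
    exact Real.pow_rpow_inv_natCast hτ0.le hNd.ne'
  obtain ⟨T0, hT0⟩ : ∃ T0 : ℝ, T0 = 1 / (((N * (2 * n) : ℕ) : ℝ) + 1) ^ (N * (2 * n)) := ⟨_, rfl⟩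
  have hT00 : 0 < T0 := by rw [hT0]; positivity
  obtain ⟨C1, hC1⟩ : ∃ C1 : ℝ, C1 = (n + 1) * 4 ^ n := ⟨_, rfl⟩
  have hC11 : 1 ≤ C1 := by
    rw [hC1]
    have h1 : (1 : ℝ) ≤ 4 ^ n := one_le_pow₀ (by norm_num)
    have h2 : (0 : ℝ) ≤ n := Nat.cast_nonneg _
    nlinarith
  obtain ⟨A', hA'⟩ : ∃ A' : ℝ, A' = 4 * N * C1 ^ 2 * A ^ 2 / e := ⟨_, rfl⟩
  have hA'e : e * A' = 4 * N * C1 ^ 2 * A ^ 2 := by rw [hA']; field_simp
  have hC1sq : 1 ≤ C1 ^ 2 := one_le_pow₀ hC11
  have hAsq : 1 ≤ A ^ 2 := one_le_pow₀ hA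
  have hbig : 1 ≤ N * C1 ^ 2 * A ^ 2 := by
    have h1 : 1 ≤ N * C1 ^ 2 := by nlinarith
    nlinarith
  have hA'1 : 1 ≤ A' := by
    rw [hA', le_div_iff₀ he0]
    nlinarith
  have hA'0 : 0 < A' := by linarith
  obtain ⟨η', hη'⟩ : ∃ η' : ℝ, η' = min 1 (T0 / A' ^ N) := ⟨_, rfl⟩
  have hη'0 : 0 < η' := by rw [hη']; positivity
  have hη'1 : η' ≤ 1 := by rw [hη']; exact min_le_left _ _
  have hη'T : η' * A' ^ N ≤ T0 := by
    have h1 : η' ≤ T0 / A' ^ N := by rw [hη']; exact min_le_right _ _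
    rwa [le_div_iff₀ (by positivity)] at h1
  obtain ⟨c, hc⟩ : ∃ c : Pr n → ℝ, c = fun k => if k = k01 then η' else A' := ⟨_, rfl⟩
  have hc0 : ∀ k, 0 < c k := by intro k; rw [hc]; simp only; split_ifs <;> assumption
  have hcA : ∀ k, c k ≤ A' := by
    intro k; rw [hc]; simp only; split_ifs
    · linarith
    · exact le_rfl
  refine ⟨e * η' / N, by positivity, max 1 (A' ^ N / T0), fun X hX => ?_⟩
  have hX1 : 1 ≤ X := (le_max_left _ _).trans hX
  have hX0 : 0 < X := by linarith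
  have hX2 : A' ^ N / T0 ≤ X := (le_max_right _ _).trans hX
  have hXT : A' ^ N / X ≤ T0 := by
    rw [div_le_iff₀ hT00] at hX2
    rw [div_le_iff₀ hX0]
    linarith
  obtain ⟨w, hw⟩ : ∃ w : Pr n → ℝ,
      w = fun k => c k * X ^ 2 / (if k.1.1 = 0 then X ^ (n + 1) else 1) := ⟨_, rfl⟩
  have hw0 : ∀ k, 0 < w k := by
    intro k
    rw [hw]
    have := hc0 k
    simp only
    split_ifs <;> positivity
  have hrich : ∀ j : ℕ, 1 ≤ j → ∀ v : Fin j → Pr n → ℤ,
      LinearIndependent ℚ (fun a i => (v a i : ℚ)) →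
      ∃ I : Fin j → Pr n, Matrix.det (Matrix.of fun a b : Fin j => Lf AA (I b) (v a)) ≠ 0 ∧
        (1 : ℝ) ^ j * ∏ b, w (I b) ≤
          1 / (((Fintype.card (Pr n) * (2 * n) : ℕ) : ℝ) + 1) ^ (Fintype.card (Pr n) * (2 * n)) := by
    intro j hj v hv
    obtain ⟨I, hdet, hI⟩ := taskD n hn j hj v hv
    refine ⟨I, hdet, ?_⟩
    have hjN : j ≤ N := by
      have h3 := hv.fintype_card_le_finrank
      rw [Fintype.card_fin, finrank_fintype_fun_eq_card] at h3
      rw [hN]; exact h3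
    rw [← hN, ← hT0, one_pow, one_mul]
    have hprod := prod_weights c X hX0 I
    have hweq : ∏ b, w (I b) = ∏ b, (c (I b) * X ^ 2 / (if (I b).1.1 = 0 then X ^ (n + 1) else 1)) := by
      rw [hw]
    rw [hweq, hprod]
    obtain ⟨q, hq⟩ : ∃ q, q = (Finset.univ.filter (fun b : Fin j => (I b).1.1 = 0)).card := ⟨_, rfl⟩
    rw [← hq] at hI ⊢
    rcases hI with hI | hI
    · have h1 : ∏ b, c (I b) ≤ A' ^ N := by
        calc ∏ b, c (I b) ≤ ∏ _b : Fin j, A' :=
              Finset.prod_le_prod (fun b _ => (hc0 _).le) (fun b _ => hcA _)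
          _ = A' ^ j := by rw [Finset.prod_const, Finset.card_univ, Fintype.card_fin]
          _ ≤ A' ^ N := pow_le_pow_right₀ hA'1 hjN
      have h2 : X ^ (2 * j) / X ^ ((n + 1) * q) ≤ 1 / X := by
        rw [div_le_div_iff₀ (by positivity) hX0, one_mul, ← pow_succ]
        exact pow_le_pow_right₀ hX1 hI
      calc (∏ b, c (I b)) * (X ^ (2 * j) / X ^ ((n + 1) * q)) ≤ A' ^ N * (1 / X) := by
            gcongr
        _ = A' ^ N / X := by ring
        _ ≤ T0 := hXT
    · have hinj : Function.Injective I := by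
        intro b b' hbb
        by_contra hne'
        exact hdet (Matrix.det_zero_of_column_eq hne' (by
          intro a
          simp only [Matrix.of_apply, hbb]))
      have hbij : Function.Bijective I :=
        (Fintype.bijective_iff_injective_and_card I).2 ⟨hinj, by rw [Fintype.card_fin]; exact hI⟩
      have hqn : n ≤ q := by
        obtain ⟨E, hE⟩ : ∃ E : Fin j ≃ Pr n, E = Equiv.ofBijective I hbij := ⟨_, rfl⟩
        have hEI : ∀ k, I (E.symm k) = k := by
          intro k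
          have := E.apply_symm_apply k
          rw [hE] at this ⊢
          exact this
        have h5 : (Finset.univ : Finset (Fin n)).card ≤ q := by
          rw [hq]
          refine Finset.card_le_card_of_injOn
            (fun l : Fin n => E.symm ⟨(0, l.succ), Fin.succ_pos l⟩) ?_ ?_
          · intro l _
            rw [Finset.mem_coe, Finset.mem_filter]
            refine ⟨Finset.mem_univ _, ?_⟩
            rw [hEI]
          · intro l _ l' _ h
            have h6 := E.symm.injective h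
            have h7 := congrArg (fun k : Pr n => k.1.2) h6
            exact Fin.succ_injective _ h7
        rwa [Finset.card_univ, Fintype.card_fin] at h5
      have hexp : 2 * j ≤ (n + 1) * q := by
        have h5 := card_Pr_le n
        rw [hI]
        nlinarith
      have h1 : ∏ b, c (I b) ≤ η' * A' ^ N := by
        have h5 : ∏ b, c (I b) = ∏ k, c k := by
          exact Fintype.prod_bijective I hbij _ _ (fun b => rfl)
        rw [h5, ← Finset.mul_prod_erase Finset.univ c (Finset.mem_univ k01)]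
        have h6 : c k01 = η' := by rw [hc]; simp
        have h7 : ∏ k ∈ Finset.univ.erase k01, c k ≤ A' ^ N := by
          calc ∏ k ∈ Finset.univ.erase k01, c k ≤ ∏ _k ∈ Finset.univ.erase k01, A' :=
                Finset.prod_le_prod (fun b _ => (hc0 _).le) (fun b _ => hcA _)
            _ = A' ^ (Finset.univ.erase k01).card := by rw [Finset.prod_const]
            _ ≤ A' ^ N := by
                apply pow_le_pow_right₀ hA'1
                refine (Finset.card_le_univ _).trans ?_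
                rw [hN]
        rw [h6]
        exact mul_le_mul_of_nonneg_left h7 hη'0.le
      have h2 : X ^ (2 * j) / X ^ ((n + 1) * q) ≤ 1 := by
        rw [div_le_one (by positivity)]
        exact pow_le_pow_right₀ hX1 hexp
      calc (∏ b, c (I b)) * (X ^ (2 * j) / X ^ ((n + 1) * q)) ≤ (η' * A' ^ N) * 1 := by
            gcongr
        _ ≤ T0 := by rw [mul_one]; exact hη'T
  have hmain := hB (Pr n) AA (2 * n) (by omega) (fun k i => AA_deg k i) w hw0 1 one_pos hrich e he0 he1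
  rw [← hN, ← hK, heτ] at hmain
  refine (measure_mono ?_).trans (hmain.trans (ENNReal.ofReal_le_ofReal hτK))
  rintro z ⟨hz, P, Q, ⟨a, b, hab⟩, hP, hQ, hP0, hQ0, hW⟩
  refine ⟨hz, fun q => P q.1.1 * Q q.1.2 - P q.1.2 * Q q.1.1, ?_, ?_⟩
  · intro h0
    have hab' : a ≠ b := by rintro rfl; exact hab rfl
    rcases lt_or_gt_of_ne hab' with h | h
    · have := congrFun h0 ⟨(a, b), h⟩
      simp only [Pi.zero_apply] at this
      apply hab
      linarith
    · have := congrFun h0 ⟨(b, a), h⟩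
      simp only [Pi.zero_apply] at this
      apply hab
      linarith
  · intro k
    rw [eval_Lf]
    have hz2 : |z| ≤ 2 := by
      rw [abs_le]; constructor <;> linarith [hz.1, hz.2]
    have bP : ∀ i : Fin (n + 1), |DD (i : ℕ) P z| ≤ C1 * (A * X) := by
      intro i; rw [hC1]; exact DD_le z hz2 i P _ hP
    have bQ : ∀ i : Fin (n + 1), |DD (i : ℕ) Q z| ≤ C1 * (A * X) := by
      intro i; rw [hC1]; exact DD_le z hz2 i Q _ hQ
    have hXX : X ^ 2 / X ^ (n + 1) = X / X ^ n := by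
      rw [div_eq_div_iff (by positivity) (by positivity)]; ring
    have hABS : ∀ x y x' y' M M' : ℝ, |x| ≤ M → |y| ≤ M' → |x'| ≤ M' → |y'| ≤ M → 
        |x * y - x' * y'| ≤ 2 * (M * M') := by
      intro x y x' y' M M' h1 h2 h3 h4
      have a1 : |x * y| ≤ M * M' := by
        rw [abs_mul]
        exact mul_le_mul h1 h2 (abs_nonneg _) ((abs_nonneg _).trans h1)
      have a2 : |x' * y'| ≤ M * M' := by
        rw [abs_mul, mul_comm M]
        exact mul_le_mul h3 h4 (abs_nonneg _) ((abs_nonneg _).trans h3)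
      have a3 := abs_sub (x * y) (x' * y')
      linarith
    have hNpos : (0 : ℝ) < N := by linarith
    rw [hw]
    simp only [mul_one]
    by_cases hk0 : k.1.1 = 0
    · rw [if_pos hk0]
      have e0 : ((k.1.1 : Fin (n + 1)) : ℕ) = 0 := by rw [hk0]; rfl
      rw [e0]
      by_cases hk1 : k = k01
      · have hck : c k = η' := by rw [hc]; simp [hk1]
        have e1 : ((k.1.2 : Fin (n + 1)) : ℕ) = 1 := by
          rw [hk1, hk01]
          simp only
          rw [Fin.val_one']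
          exact Nat.mod_eq_of_lt (by omega)
        rw [hck, e1, mul_div_assoc, hXX]
        have h1 : (N : ℝ) * |DD 0 P z * DD 1 Q z - DD 1 P z * DD 0 Q z|
            < N * (e * η' / N * X / X ^ n) := mul_lt_mul_of_pos_left hW hNpos
        refine h1.trans_le (le_of_eq ?_)
        field_simp
      · have hck : c k = A' := by rw [hc]; simp [hk1]
        rw [hck, mul_div_assoc, hXX]
        have h1 := hABS (DD 0 P z) (DD (k.1.2 : ℕ) Q z) (DD (k.1.2 : ℕ) P z) (DD 0 Q z)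
          (A / X ^ n) (C1 * (A * X)) hP0 (bQ _) (bP _) hQ0
        have h2 : (N : ℝ) * |DD 0 P z * DD (k.1.2 : ℕ) Q z - DD (k.1.2 : ℕ) P z * DD 0 Q z|
            ≤ N * (2 * (A / X ^ n * (C1 * (A * X)))) := mul_le_mul_of_nonneg_left h1 hNpos.le
        refine h2.trans_lt ?_
        have h3 : e * (A' * (X / X ^ n)) = (4 * N * C1 ^ 2 * A ^ 2) * (X / X ^ n) := by
          rw [← hA'e]; ring
        rw [h3]
        have h4 : (N : ℝ) * (2 * (A / X ^ n * (C1 * (A * X)))) = (2 * N * C1 * A ^ 2) * (X / X ^ n) := by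
          ring
        rw [h4]
        apply mul_lt_mul_of_pos_right _ (by positivity)
        have h5 : C1 ≤ C1 ^ 2 := by nlinarith
        have h6 : 0 < N * A ^ 2 := by positivity
        nlinarith
    · rw [if_neg hk0, div_one]
      have hk1 : k ≠ k01 := by
        rintro rfl
        apply hk0
        rw [hk01]
      have hck : c k = A' := by rw [hc]; simp [hk1]
      rw [hck]
      have h1 := hABS (DD (k.1.1 : ℕ) P z) (DD (k.1.2 : ℕ) Q z) (DD (k.1.2 : ℕ) P z)
        (DD (k.1.1 : ℕ) Q z) (C1 * (A * X)) (C1 * (A * X)) (bP _) (bQ _) (bP _) (bQ _)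
      have h2 : (N : ℝ) * |DD (k.1.1 : ℕ) P z * DD (k.1.2 : ℕ) Q z
          - DD (k.1.2 : ℕ) P z * DD (k.1.1 : ℕ) Q z|
          ≤ N * (2 * (C1 * (A * X) * (C1 * (A * X)))) := mul_le_mul_of_nonneg_left h1 hNpos.le
      refine h2.trans_lt ?_
      have h3 : e * (A' * X ^ 2) = (4 * N * C1 ^ 2 * A ^ 2) * X ^ 2 := by
        rw [← hA'e]; ring
      rw [h3]
      have h4 : (N : ℝ) * (2 * (C1 * (A * X) * (C1 * (A * X)))) = (2 * (N * C1 ^ 2 * A ^ 2)) * X ^ 2 := by
        ring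
      rw [h4]
      apply mul_lt_mul_of_pos_right _ (by positivity)
      nlinarith

end Pool.Agent.H285R3.Ex680E
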