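import Pool.Agent.H680R3.EX.Stmts

set_option autoImplicit false

namespace Pool.Agent.H285R3.Ex680G

open Polynomial Pool.Agent.H680R3.EX Pool.Agent.Helper404

theorem toP_coeff {n : ℕ} (u : Fin (n + 1) → ℤ) (i : Fin (n + 1)) : (toP u).coeff (i : ℕ) = u i := by
  unfold toP
  rw [finsetSum_coeff, Finset.sum_eq_single i]
  · simp
  · intro b _ hb
    rw [coeff_C_mul, coeff_X_pow, if_neg, mul_zero]
    intro h
    exact hb (Fin.ext h.symm)
  · simp

theorem toP_of {n : ℕ} (P : ℤ[X]) (h : P.natDegree ≤ n) :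
    toP (fun i : Fin (n + 1) => P.coeff (i : ℕ)) = P := by
  unfold toP
  conv_rhs => rw [P.as_sum_range' (n + 1) (by omega)]
  rw [Finset.sum_range]
  refine Finset.sum_congr rfl fun i _ => ?_
  rw [C_mul_X_pow_eq_monomial]

theorem taskG : TaskG := by
  intro n hn u hun hu0 hui α hα
  have hPc := toP_coeff u
  obtain ⟨P, hP⟩ : ∃ P, P = toP u := ⟨_, rfl⟩
  rw [← hP] at hPc hα
  have hdeg : P.natDegree ≤ n := by rw [hP]; exact toP_natDegree u
  have hlast : P.coeff n = u (Fin.last n) := by
    have := hPc (Fin.last n)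
    simpa using this
  have hne : P ≠ 0 := by
    intro h
    rw [h, coeff_zero] at hlast
    omega
  obtain ⟨Q, hQ⟩ : ∃ Q, Q = P.primPart := ⟨_, rfl⟩
  obtain ⟨c, hc⟩ : ∃ c, c = P.content := ⟨_, rfl⟩
  have hPQ : P = C c * Q := by rw [hQ, hc]; exact P.eq_C_content_mul_primPart
  have hQprim : Q.IsPrimitive := by rw [hQ]; exact P.isPrimitive_primPart
  have hQdeg' : Q.natDegree = P.natDegree := by rw [hQ]; exact P.natDegree_primPart
  have hc0 : c ≠ 0 := by
    rintro rfl
    apply hne
    rw [hPQ]; simp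
  have hcoef : ∀ i : Fin (n + 1), u i = c * Q.coeff (i : ℕ) := by
    intro i
    rw [← hPc i, hPQ, coeff_C_mul]
  have hndeg : P.natDegree = n := by
    apply le_antisymm hdeg
    apply le_natDegree_of_ne_zero
    rw [hlast]; omega
  have hQdeg : Q.natDegree = n := by rw [hQdeg', hndeg]
  have hQP : toP (fun i : Fin (n + 1) => Q.coeff (i : ℕ)) = Q := toP_of Q hQdeg.le
  have hroot : aeval α Q = 0 := by
    rw [hPQ, map_mul, aeval_C] at hα
    rcases mul_eq_zero.1 hα with h | h
    · exfalso
      apply hc0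
      have : ((c : ℤ) : ℝ) = 0 := by simpa using h
      exact_mod_cast this
    · exact h
  have hqn := hcoef (Fin.last n)
  simp only [Fin.val_last] at hqn
  have hq0 := hcoef 0
  simp only [Fin.val_zero] at hq0
  have hcodd : c % 2 = 1 := by
    rcases Int.emod_two_eq_zero_or_one c with h | h
    · exfalso
      obtain ⟨d, hd⟩ := Int.dvd_of_emod_eq_zero h
      rw [hd, mul_assoc] at hqn
      omega
    · exact h
  have hirr : Irreducible Q := by
    have h2 : Prime (2 : ℤ) := Int.prime_two
    have hprime : (Ideal.span {(2 : ℤ)}).IsPrime :=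
      (Ideal.span_singleton_prime (by norm_num)).2 h2
    refine irreducible_of_eisenstein_criterion hprime ?_ ?_ ?_ ?_ hQprim
    · rw [Ideal.mem_span_singleton, leadingCoeff, hQdeg]
      rintro ⟨d, hd⟩
      rw [hd] at hqn
      have : u (Fin.last n) = 2 * (c * d) := by rw [hqn]; ring
      omega
    · intro i hi
      rw [degree_eq_natDegree (by rintro rfl; apply hne; rw [hPQ]; simp), hQdeg] at hi
      have hi' : i < n := by exact_mod_cast hi
      rw [Ideal.mem_span_singleton]
      have h3 := hcoef ⟨i, by omega⟩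
      simp only at h3
      have h4 : (2 : ℤ) ∣ c * Q.coeff i := by
        rw [← h3]
        by_cases h0 : (⟨i, by omega⟩ : Fin (n + 1)) = 0
        · rw [h0]; omega
        · have := hui ⟨i, by omega⟩ h0 (by
            intro h
            have := congrArg Fin.val h
            simp at this
            omega)
          omega
      rcases h2.dvd_or_dvd h4 with h | h
      · omega
      · exact h
    · rw [degree_eq_natDegree (by rintro rfl; apply hne; rw [hPQ]; simp), hQdeg]
      exact_mod_cast hn
    · rw [Ideal.span_singleton_pow, Ideal.mem_span_singleton]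
      rintro ⟨d, hd⟩
      rw [hd] at hq0
      have : u 0 = 4 * (c * d) := by rw [hq0]; ring
      omega
  refine ⟨c, fun i => Q.coeff (i : ℕ), hc0, hcoef, ?_⟩
  refine ⟨?_, ?_, ?_, ?_⟩
  · have h1 : Irreducible (Q.map (Int.castRingHom ℚ)) :=
      (IsPrimitive.Int.irreducible_iff_irreducible_map_cast hQprim).1 hirr
    have h2 : aeval α (Q.map (Int.castRingHom ℚ)) = 0 := by
      have h3 : aeval α (Q.map (algebraMap ℤ ℚ)) = aeval α Q := aeval_map_algebraMap ℚ α Q
      have h4 : (Int.castRingHom ℚ) = algebraMap ℤ ℚ := rfl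
      rw [h4, h3, hroot]
    have h5 := minpoly.eq_of_irreducible h1 h2
    rw [← h5, natDegree_mul_C (by
      rw [Ne, inv_eq_zero, leadingCoeff_eq_zero]; exact h1.ne_zero),
      natDegree_map_eq_of_injective (RingHom.injective_int (Int.castRingHom ℚ)), hQdeg]
  · rw [hQP]; exact hQprim
  · rw [hQP]; exact hQdeg
  · rw [hQP]; exact hroot

end Pool.Agent.H285R3.Ex680G
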