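import Pool.Agent.H508R3.Bloch
import Pool.Agent.H585R3.AC508

set_option autoImplicit false

namespace Pool.Agent.H285R3.Step508

open Complex Pool.Agent.H508R3 ComplexConjugate

/-- solutions of the three-term recurrence -/
def Sol (U : ℤ → ℝ) (E : ℝ) (u : ℤ → ℂ) : Prop :=
  ∀ n, u (n + 1) + u (n - 1) + ((U n - E : ℝ) : ℂ) * u n = 0

theorem Sol.ex (U : ℤ → ℝ) (E : ℝ) (k : ℤ) (a b : ℂ) :
    ∃ u : ℤ → ℂ, Sol U E u ∧ u k = a ∧ u (k + 1) = b := by
  obtain ⟨c, c0, c1, hc⟩ := Pool.Agent.H585R3.AC508.exists_sol (fun n => U (n + k)) E 1 0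
  obtain ⟨s, s0, s1, hs⟩ := Pool.Agent.H585R3.AC508.exists_sol (fun n => U (n + k)) E 0 1
  refine ⟨fun n => a * c (n - k) + b * s (n - k), ?_, ?_, ?_⟩
  · intro n
    have h1 := hc (n - k)
    have h2 := hs (n - k)
    simp only [sub_add_cancel] at h1 h2
    have e1 : n + 1 - k = n - k + 1 := by ring
    have e2 : n - 1 - k = n - k - 1 := by ring
    simp only [e1, e2]
    have h1' : ((c (n - k + 1) : ℝ) : ℂ) + ((c (n - k - 1) : ℝ) : ℂ)
        + ((U n : ℝ) : ℂ) * ((c (n - k) : ℝ) : ℂ) = ((E : ℝ) : ℂ) * ((c (n - k) : ℝ) : ℂ) := by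
      exact_mod_cast h1
    have h2' : ((s (n - k + 1) : ℝ) : ℂ) + ((s (n - k - 1) : ℝ) : ℂ)
        + ((U n : ℝ) : ℂ) * ((s (n - k) : ℝ) : ℂ) = ((E : ℝ) : ℂ) * ((s (n - k) : ℝ) : ℂ) := by
      exact_mod_cast h2
    push_cast
    linear_combination a * h1' + b * h2'
  · simp [c0, s0]
  · simp [c1, s1]

theorem Sol.unique {U : ℤ → ℝ} {E : ℝ} {u v : ℤ → ℂ} (hu : Sol U E u) (hv : Sol U E v) (k : ℤ)
    (h0 : u k = v k) (h1 : u (k + 1) = v (k + 1)) (n : ℤ) : u n = v n := by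
  have key : ∀ n : ℤ, u n = v n ∧ u (n + 1) = v (n + 1) := by
    intro n
    refine Int.inductionOn' n k ⟨h0, h1⟩ ?_ ?_
    · intro j _ hj
      refine ⟨hj.2, ?_⟩
      have a1 := hu (j + 1)
      have a2 := hv (j + 1)
      simp only [add_sub_cancel_right] at a1 a2
      rw [hj.1, hj.2] at a1
      linear_combination a1 - a2
    · intro j _ hj
      have a1 := hu j
      have a2 := hv j
      rw [hj.1, hj.2] at a1
      refine ⟨by linear_combination a1 - a2, ?_⟩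
      simpa using hj.1
  exact (key n).1

theorem Sol.comb {U : ℤ → ℝ} {E : ℝ} {u v : ℤ → ℂ} (hu : Sol U E u) (hv : Sol U E v) (a b : ℂ) :
    Sol U E (fun n => a * u n + b * v n) := by
  intro n
  have h1 := hu n
  have h2 := hv n
  linear_combination a * h1 + b * h2

theorem Sol.conj {U : ℤ → ℝ} {E : ℝ} {u : ℤ → ℂ} (hu : Sol U E u) :
    Sol U E (fun n => conj (u n)) := by
  intro n
  have h := congrArg conj (hu n)
  simp only [map_add, map_mul, conj_ofReal, map_zero] at h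
  exact h

/-- the coefficient of `w` -/
noncomputable def al (w u : ℤ → ℂ) (n : ℤ) : ℂ :=
  (u (n + 1) * conj (w n) - u n * conj (w (n + 1))) / (2 * I)

/-- the coefficient of `conj w` -/
noncomputable def be (w u : ℤ → ℂ) (n : ℤ) : ℂ :=
  -(u (n + 1) * w n - u n * w (n + 1)) / (2 * I)

theorem wr {w : ℤ → ℂ} (n : ℤ) (h : (conj (w n) * w (n + 1)).im = 1) :
    conj (w n) * w (n + 1) - w n * conj (w (n + 1)) = 2 * I := by
  have := Complex.sub_conj (conj (w n) * w (n + 1))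
  rw [h] at this
  simpa using this

theorem two_I_ne : (2 * I : ℂ) ≠ 0 := by simp

theorem rep0 {w u : ℤ → ℂ} (n : ℤ) (h : (conj (w n) * w (n + 1)).im = 1) :
    al w u n * w n + be w u n * conj (w n) = u n := by
  have h2 := wr n h
  unfold al be
  field_simp
  linear_combination (u n) * h2

theorem rep1 {w u : ℤ → ℂ} (n : ℤ) (h : (conj (w n) * w (n + 1)).im = 1) :
    al w u n * w (n + 1) + be w u n * conj (w (n + 1)) = u (n + 1) := by
  have h2 := wr n h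
  unfold al be
  field_simp
  linear_combination (u (n + 1)) * h2

theorem al_diff {U U' : ℤ → ℝ} {E : ℝ} {w u : ℤ → ℂ} (hw : Sol U E w) (hu : Sol U' E u) (n : ℤ) :
    al w u (n + 1) - al w u n
      = ((U (n + 1) - U' (n + 1) : ℝ) : ℂ) * u (n + 1) * conj (w (n + 1)) / (2 * I) := by
  have h1 := hw.conj (n + 1)
  have h2 := hu (n + 1)
  simp only [add_sub_cancel_right] at h1 h2
  unfold al
  push_cast at *
  field_simp
  linear_combination conj (w (n + 1)) * h2 - u (n + 1) * h1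

theorem be_diff {U U' : ℤ → ℝ} {E : ℝ} {w u : ℤ → ℂ} (hw : Sol U E w) (hu : Sol U' E u) (n : ℤ) :
    be w u (n + 1) - be w u n
      = -(((U (n + 1) - U' (n + 1) : ℝ) : ℂ) * u (n + 1) * w (n + 1)) / (2 * I) := by
  have h1 := hw (n + 1)
  have h2 := hu (n + 1)
  simp only [add_sub_cancel_right] at h1 h2
  unfold be
  push_cast at *
  field_simp
  linear_combination -w (n + 1) * h2 + u (n + 1) * h1

/-- one centre site -/
theorem step1 {U U' : ℤ → ℝ} {E τ B : ℝ} {w u : ℤ → ℂ} (hw : Sol U E w) (hu : Sol U' E u)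
    (hτ : 0 ≤ τ) (hB : ∀ n, ‖w n‖ ^ 2 ≤ B) (hwr : ∀ n, (conj (w n) * w (n + 1)).im = 1)
    (n : ℤ) (hn : U' (n + 1) = U (n + 1) + τ) :
    ‖al w u (n + 1) - al w u n‖ + ‖be w u (n + 1) - be w u n‖
      ≤ τ * B * (‖al w u n‖ + ‖be w u n‖) := by
  have hun : ‖u (n + 1)‖ ≤ (‖al w u n‖ + ‖be w u n‖) * ‖w (n + 1)‖ := by
    rw [← rep1 (u := u) n (hwr n)]
    refine (norm_add_le _ _).trans ?_
    rw [norm_mul, norm_mul, RCLike.norm_conj]
    nlinarith
  have hd : ‖((U (n + 1) - U' (n + 1) : ℝ) : ℂ)‖ = τ := by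
    rw [hn]
    simp [abs_of_nonneg hτ]
  have h1 : ‖al w u (n + 1) - al w u n‖ = τ * ‖u (n + 1)‖ * ‖w (n + 1)‖ / 2 := by
    rw [al_diff hw hu, norm_div, norm_mul, norm_mul, hd, RCLike.norm_conj]
    simp
  have h2 : ‖be w u (n + 1) - be w u n‖ = τ * ‖u (n + 1)‖ * ‖w (n + 1)‖ / 2 := by
    rw [be_diff hw hu, norm_div, norm_neg, norm_mul, norm_mul, hd]
    simp
  rw [h1, h2]
  have hb := hB (n + 1)
  have h0 : 0 ≤ ‖al w u n‖ + ‖be w u n‖ := by positivity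
  calc τ * ‖u (n + 1)‖ * ‖w (n + 1)‖ / 2 + τ * ‖u (n + 1)‖ * ‖w (n + 1)‖ / 2
      = τ * (‖u (n + 1)‖ * ‖w (n + 1)‖) := by ring
    _ ≤ τ * ((‖al w u n‖ + ‖be w u n‖) * ‖w (n + 1)‖ * ‖w (n + 1)‖) := by
        gcongr
    _ = τ * (‖al w u n‖ + ‖be w u n‖) * ‖w (n + 1)‖ ^ 2 := by ring
    _ ≤ τ * (‖al w u n‖ + ‖be w u n‖) * B := by gcongr
    _ = τ * B * (‖al w u n‖ + ‖be w u n‖) := by ring

/-- the eigenvector of an elliptic `SU(1,1)` matrix, positive case -/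
theorem eig_pos (p q : ℂ) (h1 : ‖p‖ ^ 2 - ‖q‖ ^ 2 = 1) (h2 : ‖q‖ < p.im) :
    ∃ z x y : ℂ, ‖z‖ = 1 ∧ p * x + q * y = z * x ∧ conj q * x + conj p * y = z * y ∧
      ‖x‖ ^ 2 - ‖y‖ ^ 2 = 1 ∧ (‖x‖ + ‖y‖) ^ 2 * (p.im - ‖q‖) ≤ p.im + ‖q‖ := by
  set a := p.im with ha
  set Q := ‖q‖ with hQ
  have hQ0 : 0 ≤ Q := norm_nonneg _
  have ha0 : 0 < a := lt_of_le_of_lt hQ0 h2
  have hpos : 0 < a ^ 2 - Q ^ 2 := by nlinarith
  set b := Real.sqrt (a ^ 2 - Q ^ 2) with hb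
  have hb0 : 0 < b := Real.sqrt_pos.2 hpos
  have hb2 : b ^ 2 = a ^ 2 - Q ^ 2 := Real.sq_sqrt hpos.le
  have hp2 : ‖p‖ ^ 2 = p.re ^ 2 + a ^ 2 := by
    rw [Complex.sq_norm, Complex.normSq_apply]; ring
  set c := 1 / Real.sqrt (2 * b * (a + b)) with hc
  have hs0 : 0 < 2 * b * (a + b) := by positivity
  have hc0 : 0 < c := by positivity
  have hc2 : c ^ 2 * (2 * b * (a + b)) = 1 := by
    rw [hc, div_pow, one_pow, Real.sq_sqrt hs0.le]
    field_simp
  have hq2 : q * conj q = (Q : ℂ) ^ 2 := by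
    rw [Complex.mul_conj, hQ, Complex.normSq_eq_norm_sq]; push_cast; ring
  have hp : p = (p.re : ℂ) + (a : ℂ) * I := (Complex.re_add_im p).symm
  have hpc : conj p = (p.re : ℂ) - (a : ℂ) * I := by
    conv_lhs => rw [hp]
    simp [sub_eq_add_neg]
  have hbC : (b : ℂ) ^ 2 = (a : ℂ) ^ 2 - (Q : ℂ) ^ 2 := by exact_mod_cast hb2
  refine ⟨(p.re : ℂ) + (b : ℂ) * I, ((a + b) * c : ℝ), -I * conj q * (c : ℝ), ?_, ?_, ?_, ?_, ?_⟩
  · have : ‖(p.re : ℂ) + (b : ℂ) * I‖ ^ 2 = 1 := by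
      rw [Complex.sq_norm, Complex.normSq_add_mul_I]
      nlinarith
    have h0 : 0 ≤ ‖(p.re : ℂ) + (b : ℂ) * I‖ := norm_nonneg _
    nlinarith
  · conv_lhs => rw [hp]
    push_cast
    linear_combination (-I * (c : ℂ)) * hq2 - (I * (c : ℂ)) * hbC
  · rw [hpc]
    push_cast
    linear_combination (conj q * (c : ℂ) * (a + b)) * Complex.I_sq
  · rw [norm_mul, norm_mul, norm_neg, Complex.norm_I, RCLike.norm_conj, Complex.norm_real,
      Complex.norm_real, Real.norm_of_nonneg hc0.le, Real.norm_of_nonneg (by positivity)]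
    nlinarith
  · rw [norm_mul, norm_mul, norm_neg, Complex.norm_I, RCLike.norm_conj, Complex.norm_real,
      Complex.norm_real, Real.norm_of_nonneg hc0.le, Real.norm_of_nonneg (by positivity)]
    rw [← hQ]
    have e : ((a + b) * c + 1 * Q * c) ^ 2 * (a - Q)
        = c ^ 2 * ((a + Q) * (b + a - Q) ^ 2) := by
      have : (a + b + Q) ^ 2 * (a - Q) = (a + Q) * (b + a - Q) ^ 2 := by
        have : (a - Q) * (a + Q) = b ^ 2 := by rw [hb2]; ring
        linear_combination ((a + Q) - (a - Q)) * this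
      calc ((a + b) * c + 1 * Q * c) ^ 2 * (a - Q)
          = c ^ 2 * ((a + b + Q) ^ 2 * (a - Q)) := by ring
        _ = _ := by rw [this]
    rw [e]
    have h3 : (b + a - Q) ^ 2 ≤ 2 * b * (a + b) := by
      have : (a - Q) * (a + Q) = b ^ 2 := by rw [hb2]; ring
      nlinarith [mul_nonneg hQ0 hb0.le, mul_nonneg (sub_pos.2 h2).le hQ0]
    calc c ^ 2 * ((a + Q) * (b + a - Q) ^ 2) ≤ c ^ 2 * ((a + Q) * (2 * b * (a + b))) := by
          gcongr
      _ = (c ^ 2 * (2 * b * (a + b))) * (a + Q) := by ring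
      _ = a + Q := by rw [hc2, one_mul]

theorem eig (p q : ℂ) (h1 : ‖p‖ ^ 2 - ‖q‖ ^ 2 = 1) (h2 : ‖q‖ < |p.im|) :
    ∃ z x y : ℂ, ‖z‖ = 1 ∧ p * x + q * y = z * x ∧ conj q * x + conj p * y = z * y ∧
      ‖x‖ ^ 2 - ‖y‖ ^ 2 = 1 ∧ (‖x‖ + ‖y‖) ^ 2 * (|p.im| - ‖q‖) ≤ |p.im| + ‖q‖ := by
  rcases le_or_gt 0 p.im with h | h
  · rw [abs_of_nonneg h] at h2 ⊢
    exact eig_pos p q h1 h2
  · rw [abs_of_neg h] at h2 ⊢
    obtain ⟨z, x, y, a1, a2, a3, a4, a5⟩ := eig_pos (conj p) (conj q)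
      (by rw [RCLike.norm_conj, RCLike.norm_conj]; exact h1)
      (by rw [RCLike.norm_conj, Complex.conj_im]; exact h2)
    refine ⟨conj z, conj x, conj y, ?_, ?_, ?_, ?_, ?_⟩
    · rw [RCLike.norm_conj]; exact a1
    · have := congrArg conj a2
      simpa using this
    · have := congrArg conj a3
      simpa using this
    · rw [RCLike.norm_conj, RCLike.norm_conj]; exact a4
    · rw [RCLike.norm_conj, RCLike.norm_conj]
      simpa using a5


/-- the constant `(1+y)^n` for `n y ≤ 1` -/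
theorem pow_bd (y : ℝ) (n : ℕ) (hy : 0 ≤ y) (h : n * y ≤ 1) : (1 + y) ^ n ≤ 1 + 2 * (n * y) := by
  have h0 : 0 ≤ n * y := by positivity
  have h1 : (1 + y) ^ n ≤ Real.exp (n * y) := by
    rw [Real.exp_nat_mul]
    have : 1 + y ≤ Real.exp y := by
      have := Real.add_one_le_exp y
      linarith
    gcongr
  have h2 := Real.abs_exp_sub_one_sub_id_le (x := n * y) (by rw [abs_of_nonneg h0]; exact h)
  have h3 := (abs_le.1 h2).2
  nlinarith

theorem step_centre {U U' : ℤ → ℝ} {E τ B : ℝ} {w u : ℤ → ℂ} (hw : Sol U E w) (hu : Sol U' E u)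
    (hτ : 0 ≤ τ) (hB : ∀ n, ‖w n‖ ^ 2 ≤ B) (hwr : ∀ n, (conj (w n) * w (n + 1)).im = 1)
    (k : ℤ) (hk : al w u k = 1) (hk' : be w u k = 0) (N : ℕ)
    (hn : ∀ j : ℕ, j < N → U' (k + j + 1) = U (k + j + 1) + τ) (j : ℕ) (hj : j ≤ N) :
    ‖al w u (k + j) - 1‖ + ‖be w u (k + j)‖ ≤ (1 + τ * B) ^ j - 1 := by
  induction j with
  | zero => simp [hk, hk']
  | succ j ih =>
    have ih' := ih (by omega)
    have hs := step1 hw hu hτ hB hwr (k + j) (hn j (by omega))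
    have e : k + ((j + 1 : ℕ) : ℤ) = k + j + 1 := by push_cast; ring
    rw [e]
    have hB0 : 0 ≤ B := le_trans (by positivity) (hB 0)
    have t1 : ‖al w u (k + j + 1) - 1‖ ≤ ‖al w u (k + j + 1) - al w u (k + j)‖
        + ‖al w u (k + j) - 1‖ := by
      have := norm_add_le (al w u (k + j + 1) - al w u (k + j)) (al w u (k + j) - 1)
      simpa using this
    have t2 : ‖be w u (k + j + 1)‖ ≤ ‖be w u (k + j + 1) - be w u (k + j)‖
        + ‖be w u (k + j)‖ := by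
      have := norm_add_le (be w u (k + j + 1) - be w u (k + j)) (be w u (k + j))
      simpa using this
    have t3 : ‖al w u (k + j)‖ ≤ 1 + ‖al w u (k + j) - 1‖ := by
      have := norm_add_le (1 : ℂ) (al w u (k + j) - 1)
      simpa using this
    have t4 : ‖al w u (k + j)‖ + ‖be w u (k + j)‖ ≤ (1 + τ * B) ^ j := by linarith
    have t5 : τ * B * (‖al w u (k + j)‖ + ‖be w u (k + j)‖) ≤ τ * B * (1 + τ * B) ^ j := by
      gcongr
    rw [pow_succ]
    linarith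

theorem step_out {U U' : ℤ → ℝ} {E : ℝ} {w u : ℤ → ℂ} (hw : Sol U E w) (hu : Sol U' E u)
    (k : ℤ) (N : ℕ) (hn : ∀ j : ℕ, j < N → U' (k + j + 1) = U (k + j + 1)) (j : ℕ) (hj : j ≤ N) :
    al w u (k + j) = al w u k ∧ be w u (k + j) = be w u k := by
  induction j with
  | zero => simp
  | succ j ih =>
    have ih' := ih (by omega)
    have h1 := al_diff hw hu (k + j)
    have h2 := be_diff hw hu (k + j)
    rw [hn j (by omega)] at h1 h2
    have e : k + ((j + 1 : ℕ) : ℤ) = k + j + 1 := by push_cast; ring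
    rw [e]
    simp only [sub_self, ofReal_zero, zero_mul, neg_zero, zero_div] at h1 h2
    exact ⟨by rw [sub_eq_zero.1 h1]; exact ih'.1, by rw [sub_eq_zero.1 h2]; exact ih'.2⟩

/-- the Wronskian is constant -/
theorem wron_const {U : ℤ → ℝ} {E : ℝ} {u : ℤ → ℂ} (hu : Sol U E u) (k n : ℤ) :
    (conj (u n) * u (n + 1)).im = (conj (u k) * u (k + 1)).im := by
  have key : ∀ j : ℤ, (conj (u (j + 1)) * u (j + 1 + 1)).im = (conj (u j) * u (j + 1)).im := by
    intro j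
    have h1 := hu (j + 1)
    simp only [add_sub_cancel_right] at h1
    have h2 : u (j + 1 + 1) = -u j - ((U (j + 1) - E : ℝ) : ℂ) * u (j + 1) := by
      linear_combination h1
    rw [h2]
    simp only [Complex.mul_im, Complex.sub_re, Complex.sub_im, Complex.neg_re, Complex.neg_im,
      Complex.mul_re, Complex.conj_re, Complex.conj_im, Complex.ofReal_re, Complex.ofReal_im]
    ring
  refine Int.inductionOn' n k rfl ?_ ?_
  · intro j _ hj
    rw [key j, hj]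
  · intro j _ hj
    rw [← hj]
    have := key (j - 1)
    simp only [sub_add_cancel] at this
    rw [this, sub_add_cancel]

theorem per_pow {w : ℤ → ℂ} {z : ℂ} {N : ℕ} (hper : ∀ n : ℤ, w (n + N) = z * w n) (m : ℕ) (n : ℤ) :
    w (n + ((m * N : ℕ) : ℤ)) = z ^ m * w n := by
  induction m with
  | zero => simp
  | succ m ih =>
    have e : n + (((m + 1) * N : ℕ) : ℤ) = n + ((m * N : ℕ) : ℤ) + N := by push_cast; ring
    rw [e, hper, ih, pow_succ]
    ring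


theorem wron_comb (p r w0 w1 : ℂ) (h : (conj w0 * w1).im = 1) :
    (conj (p * w0 + r * conj w0) * (p * w1 + r * conj w1)).im = ‖p‖ ^ 2 - ‖r‖ ^ 2 := by
  simp only [Complex.sq_norm, Complex.normSq_apply, Complex.mul_im, Complex.mul_re, Complex.add_re,
    Complex.add_im, Complex.conj_re, Complex.conj_im] at h ⊢
  linear_combination (p.re * p.re + p.im * p.im - (r.re * r.re + r.im * r.im)) * h

theorem numeric (x ρ S : ℝ) (hx0 : 0 ≤ x) (hx1 : 16 * x ≤ ρ) (hρ0 : 0 < ρ) (hρ2 : ρ ≤ 1)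
    (hS0 : 0 ≤ S) (hS : S * (ρ - 2 * x) ≤ ρ + 2 * x) :
    S * (1 + 2 * x) ^ 2 ≤ 1 + 32 * (x / ρ) := by
  set ξ := x / ρ with hξ
  have hxρ : x = ξ * ρ := by rw [hξ]; field_simp
  have hξ0 : 0 ≤ ξ := by positivity
  have hξ1 : ξ ≤ 1 / 16 := by
    rw [hξ, div_le_iff₀ hρ0]; linarith
  have h1 : S * (1 - 2 * ξ) ≤ 1 + 2 * ξ := by
    have : S * (1 - 2 * ξ) * ρ ≤ (1 + 2 * ξ) * ρ := by
      rw [hxρ] at hS
      nlinarith
    exact le_of_mul_le_mul_right this hρ0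
  have h2 : S ≤ 1 + 5 * ξ := by
    by_contra hcon
    push Not at hcon
    have : (1 + 5 * ξ) * (1 - 2 * ξ) < S * (1 - 2 * ξ) := by
      apply mul_lt_mul_of_pos_right hcon; linarith
    nlinarith
  have h3 : x ≤ ξ := by
    rw [hxρ]; nlinarith
  have h4 : (1 + 2 * x) ^ 2 ≤ 1 + 5 * ξ := by nlinarith
  calc S * (1 + 2 * x) ^ 2 ≤ (1 + 5 * ξ) * (1 + 5 * ξ) := by
        gcongr
    _ ≤ 1 + 32 * ξ := by nlinarith

theorem bloch_step (U U' : ℤ → ℝ) (E : ℝ) (h m : ℕ) (τ ρ B : ℝ) (z : ℂ) (w : ℤ → ℂ)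
    (hw : Bloch U E (2 * h + 1) z w B)
    (hU' : ∀ n : ℤ, U' (n + ((2 * m + 1) * (2 * h + 1) : ℕ)) = U' n)
    (hin : ∀ n : ℤ, -(h : ℤ) ≤ n → n ≤ h → U' n = U n + τ)
    (hout : ∀ n : ℤ, (h : ℤ) < n → n < ((2 * m + 1) * (2 * h + 1) : ℕ) - (h : ℤ) → U' n = U n)
    (hτ : 0 ≤ τ) (hρ0 : 0 < ρ) (hρ1 : ρ ≤ |(z ^ (2 * m + 1)).im|)
    (hsmall : 16 * (2 * h + 1) * τ * B ≤ ρ) :
    ∃ (z' : ℂ) (w' : ℤ → ℂ), Bloch U' E ((2 * m + 1) * (2 * h + 1)) z' w'
      (B * (1 + 32 * (2 * h + 1) * τ * B / ρ)) := by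
  have hws : Sol U E w := hw.eq
  have hB := hw.bd
  have hwr := hw.wron
  have hB0 : 0 ≤ B := le_trans (by positivity) (hB 0)
  obtain ⟨k, hk⟩ : ∃ k : ℤ, k = -(h : ℤ) - 1 := ⟨_, rfl⟩
  obtain ⟨R, hR⟩ : ∃ R : ℕ, R = 2 * m * (2 * h + 1) := ⟨_, rfl⟩
  obtain ⟨M, hM⟩ : ∃ M : ℕ, M = (2 * m + 1) * (2 * h + 1) := ⟨_, rfl⟩
  have hMR : M = R + (2 * h + 1) := by rw [hM, hR]; ring
  obtain ⟨u, hu, hu0, hu1⟩ := Sol.ex U' E k (w k) (w (k + 1))
  have hal : al w u k = 1 := by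
    unfold al
    rw [hu0, hu1, div_eq_one_iff_eq two_I_ne]
    have := wr k (hwr k)
    linear_combination this
  have hbe : be w u k = 0 := by
    unfold be
    rw [hu0, hu1, mul_comm (w (k + 1)) (w k)]
    simp
  have hc : ∀ j : ℕ, j ≤ 2 * h + 1 →
      ‖al w u (k + j) - 1‖ + ‖be w u (k + j)‖ ≤ (1 + τ * B) ^ j - 1 := by
    intro j hj
    refine step_centre hws hu hτ hB hwr k hal hbe (2 * h + 1) ?_ j hj
    intro i hi
    apply hin <;> omega
  obtain ⟨x, hx⟩ : ∃ x : ℝ, x = (2 * h + 1) * (τ * B) := ⟨_, rfl⟩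
  have hτB : 0 ≤ τ * B := by positivity
  have hx0 : 0 ≤ x := by rw [hx]; positivity
  have hx1 : 16 * x ≤ ρ := by rw [hx]; linarith
  have hζn : ‖z ^ (2 * m + 1)‖ = 1 := by rw [norm_pow, hw.unit, one_pow]
  have hρ2 : ρ ≤ 1 := by
    refine hρ1.trans ?_
    rw [← hζn]
    exact Complex.abs_im_le_norm _
  have hd : ∀ j : ℕ, j ≤ 2 * h + 1 → (1 + τ * B) ^ j ≤ 1 + 2 * x := by
    intro j hj
    have h1 : (1 + τ * B) ^ j ≤ (1 + τ * B) ^ (2 * h + 1) :=
      pow_le_pow_right₀ (by linarith) hj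
    have h2 := pow_bd (τ * B) (2 * h + 1) hτB (by
      have : ((2 * h + 1 : ℕ) : ℝ) * (τ * B) = x := by rw [hx]; push_cast; ring
      rw [this]; linarith)
    have h3 : ((2 * h + 1 : ℕ) : ℝ) * (τ * B) = x := by rw [hx]; push_cast; ring
    rw [h3] at h2
    linarith
  have hkh : k + ((2 * h + 1 : ℕ) : ℤ) = h := by rw [hk]; push_cast; ring
  obtain ⟨p0, hp0⟩ : ∃ p0 : ℂ, p0 = al w u h := ⟨_, rfl⟩
  obtain ⟨r0, hr0⟩ : ∃ r0 : ℂ, r0 = be w u h := ⟨_, rfl⟩
  have hpr : ‖p0 - 1‖ + ‖r0‖ ≤ 2 * x := by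
    have h1 := hc (2 * h + 1) le_rfl
    have h2 := hd (2 * h + 1) le_rfl
    rw [hkh, ← hp0, ← hr0] at h1
    linarith
  have hout' : ∀ j : ℕ, j ≤ R → al w u (h + j) = p0 ∧ be w u (h + j) = r0 := by
    intro j hj
    rw [hp0, hr0]
    refine step_out hws hu h R ?_ j hj
    intro i hi
    apply hout
    · omega
    · rw [← hM]; omega
  -- the rep at the end of the period
  have hkM : k + (M : ℤ) = h + (R : ℤ) := by rw [hk, hMR]; push_cast; ring
  obtain ⟨ζ, hζ⟩ : ∃ ζ : ℂ, ζ = z ^ (2 * m + 1) := ⟨_, rfl⟩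
  have hζn' : ‖ζ‖ = 1 := by rw [hζ]; exact hζn
  have hwM : ∀ n : ℤ, w (n + (M : ℤ)) = ζ * w n := by
    intro n
    have := per_pow hw.per (2 * m + 1) n
    rw [← hM] at this
    rw [this, hζ]
  have hR2 := hout' R le_rfl
  have hend0 : u (k + M) = p0 * (ζ * w k) + r0 * conj (ζ * w k) := by
    have := rep0 (u := u) (h + (R : ℤ)) (hwr _)
    rw [hR2.1, hR2.2, ← hkM, hwM] at this
    exact this.symm
  have hend1 : u (k + 1 + M) = p0 * (ζ * w (k + 1)) + r0 * conj (ζ * w (k + 1)) := by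
    have := rep1 (u := u) (h + (R : ℤ)) (hwr _)
    rw [hR2.1, hR2.2, ← hkM] at this
    have e : k + (M : ℤ) + 1 = k + 1 + M := by ring
    rw [e, hwM] at this
    exact this.symm
  have hwron0 : ‖p0‖ ^ 2 - ‖r0‖ ^ 2 = 1 := by
    have h1 := wron_const hu k h
    rw [hu0, hu1, hwr k] at h1
    rw [← wron_comb p0 r0 (w h) (w (h + 1)) (hwr h), hp0, hr0, rep0 _ (hwr _), rep1 _ (hwr _)]
    exact h1
  -- the monodromy
  obtain ⟨p, hp⟩ : ∃ p : ℂ, p = ζ * p0 := ⟨_, rfl⟩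
  obtain ⟨q, hq⟩ : ∃ q : ℂ, q = ζ * conj r0 := ⟨_, rfl⟩
  have hpn : ‖p‖ = ‖p0‖ := by rw [hp, norm_mul, hζn', one_mul]
  have hqn : ‖q‖ = ‖r0‖ := by rw [hq, norm_mul, hζn', one_mul, RCLike.norm_conj]
  have hpim : ρ - ‖p0 - 1‖ ≤ |p.im| := by
    have h1 : |ζ.im| - |p.im| ≤ |ζ.im - p.im| := abs_sub_abs_le_abs_sub _ _
    have h2 : |ζ.im - p.im| ≤ ‖ζ - p‖ := by
      rw [← Complex.sub_im]; exact Complex.abs_im_le_norm _
    have h3 : ‖ζ - p‖ = ‖p0 - 1‖ := by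
      have : ζ - p = -(ζ * (p0 - 1)) := by rw [hp]; ring
      rw [this, norm_neg, norm_mul, hζn', one_mul]
    have h4 : ρ ≤ |ζ.im| := by rw [hζ]; exact hρ1
    linarith
  have hr0n : 0 ≤ ‖r0‖ := norm_nonneg _
  have hp1n : 0 ≤ ‖p0 - 1‖ := norm_nonneg _
  obtain ⟨z', X, Y, e1, e2, e3, e4, e5⟩ := eig p q (by rw [hpn, hqn]; exact hwron0)
    (by rw [hqn]; linarith)
  have hsol : Sol U' E (fun n => X * u n + Y * conj (u n)) := hu.comb hu.conj X Y
  have hper : ∀ n : ℤ, X * u (n + M) + Y * conj (u (n + M)) = z' * (X * u n + Y * conj (u n)) := by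
    intro n
    have hs1 : Sol U' E (fun n => X * u (n + M) + Y * conj (u (n + M))) := by
      intro n
      have := hsol (n + M)
      have e1 : n + (M : ℤ) + 1 = n + 1 + M := by ring
      have e2 : n + (M : ℤ) - 1 = n - 1 + M := by ring
      have e3 : U' (n + M) = U' n := by
        have := hU' n
        rw [← hM] at this
        exact this
      simp only [e1, e2, e3] at this
      exact this
    have hs2 : Sol U' E (fun n => z' * (X * u n + Y * conj (u n))) := by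
      intro n
      have := hsol n
      linear_combination z' * this
    have hζc : conj ζ * ζ = 1 := by
      rw [mul_comm, Complex.mul_conj, Complex.normSq_eq_norm_sq, hζn']; simp
    refine Sol.unique hs1 hs2 k ?_ ?_ n
    · show X * u (k + M) + Y * conj (u (k + M)) = z' * (X * u k + Y * conj (u k))
      rw [hend0, hu0]
      have e3' := e3
      rw [hp, hq] at e2 e3'
      simp only [map_mul, map_add, Complex.conj_conj] at e3' ⊢
      linear_combination (w k) * e2 + conj (w k) * e3'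
    · show X * u (k + 1 + M) + Y * conj (u (k + 1 + M)) = z' * (X * u (k + 1) + Y * conj (u (k + 1)))
      rw [hend1, hu1]
      have e3' := e3
      rw [hp, hq] at e2 e3'
      simp only [map_mul, map_add, Complex.conj_conj] at e3' ⊢
      linear_combination (w (k + 1)) * e2 + conj (w (k + 1)) * e3'
  refine ⟨z', fun n => X * u n + Y * conj (u n), ?_⟩
  rw [← hM]
  refine ⟨hsol, hper, e1, ?_, ?_⟩
  · intro n
    have h1 := wron_const hsol k n
    have h2 := wron_comb X Y (w k) (w (k + 1)) (hwr k)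
    simp only [hu0, hu1] at h1
    rw [h2, e4] at h1
    exact h1
  · -- the bound
    have hs : ∀ j : ℕ, j ≤ M → ‖al w u (k + j)‖ + ‖be w u (k + j)‖ ≤ 1 + 2 * x := by
      intro j hj
      rcases le_or_gt j (2 * h + 1) with hj' | hj'
      · have h1 := hc j hj'
        have h2 := hd j hj'
        have h3 : ‖al w u (k + j)‖ ≤ 1 + ‖al w u (k + j) - 1‖ := by
          have := norm_add_le (1 : ℂ) (al w u (k + j) - 1)
          simpa using this
        linarith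
      · obtain ⟨i, rfl⟩ : ∃ i : ℕ, j = 2 * h + 1 + i := ⟨j - (2 * h + 1), by omega⟩
        have e : k + ((2 * h + 1 + i : ℕ) : ℤ) = h + i := by rw [hk]; push_cast; ring
        have h1 := hout' i (by omega)
        rw [e, h1.1, h1.2]
        have h3 : ‖p0‖ ≤ 1 + ‖p0 - 1‖ := by
          have := norm_add_le (1 : ℂ) (p0 - 1)
          simpa using this
        linarith
    have hS0 : 0 ≤ (‖X‖ + ‖Y‖) ^ 2 := by positivity
    have hS1 : 1 ≤ (‖X‖ + ‖Y‖) ^ 2 := by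
      rw [← e4]
      nlinarith [norm_nonneg X, norm_nonneg Y, mul_nonneg (norm_nonneg X) (norm_nonneg Y),
        sq_nonneg ‖Y‖]
    have hS : (‖X‖ + ‖Y‖) ^ 2 * (ρ - 2 * x) ≤ ρ + 2 * x := by
      rw [hqn] at e5
      have h1 : ρ - 2 * x ≤ |p.im| - ‖r0‖ := by linarith
      have h2 : ((‖X‖ + ‖Y‖) ^ 2 - 1) * (ρ - 2 * x)
          ≤ ((‖X‖ + ‖Y‖) ^ 2 - 1) * (|p.im| - ‖r0‖) := by
        apply mul_le_mul_of_nonneg_left h1; linarith
      have h3 : ‖r0‖ ≤ 2 * x := by linarith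
      nlinarith
    have hnum := numeric x ρ _ hx0 hx1 hρ0 hρ2 hS0 hS
    have hbd : ∀ j : ℕ, j ≤ M → ‖X * u (k + j) + Y * conj (u (k + j))‖ ^ 2
        ≤ B * (1 + 32 * (2 * h + 1) * τ * B / ρ) := by
      intro j hj
      have h1 : ‖u (k + j)‖ ≤ (1 + 2 * x) * ‖w (k + j)‖ := by
        rw [← rep0 (u := u) (k + j) (hwr _)]
        refine (norm_add_le _ _).trans ?_
        rw [norm_mul, norm_mul, RCLike.norm_conj, ← add_mul]
        exact mul_le_mul_of_nonneg_right (hs j hj) (norm_nonneg _)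
      have h2 : ‖X * u (k + j) + Y * conj (u (k + j))‖
          ≤ (‖X‖ + ‖Y‖) * ((1 + 2 * x) * ‖w (k + j)‖) := by
        refine (norm_add_le _ _).trans ?_
        rw [norm_mul, norm_mul, RCLike.norm_conj, ← add_mul]
        exact mul_le_mul_of_nonneg_left h1 (by positivity)
      have h3 : 32 * (2 * h + 1) * τ * B / ρ = 32 * (x / ρ) := by rw [hx]; ring
      rw [h3]
      calc ‖X * u (k + j) + Y * conj (u (k + j))‖ ^ 2
          ≤ ((‖X‖ + ‖Y‖) * ((1 + 2 * x) * ‖w (k + j)‖)) ^ 2 := by gcongr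
        _ = ((‖X‖ + ‖Y‖) ^ 2 * (1 + 2 * x) ^ 2) * ‖w (k + j)‖ ^ 2 := by ring
        _ ≤ (1 + 32 * (x / ρ)) * B := by
            have := hB (k + j)
            gcongr
        _ = B * (1 + 32 * (x / ρ)) := by ring
    have hP : Function.Periodic (fun n : ℤ => ‖X * u n + Y * conj (u n)‖) (M : ℤ) := by
      intro n
      show ‖X * u (n + M) + Y * conj (u (n + M))‖ = ‖X * u n + Y * conj (u n)‖
      rw [hper, norm_mul, e1, one_mul]
    intro n
    have hMpos : (0 : ℤ) < M := by rw [hMR]; positivity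
    have hdm : n = k + (n - k) % M + ((n - k) / M) * M := by
      have := Int.emod_add_mul_ediv (n - k) M
      linarith
    obtain ⟨r, hr⟩ : ∃ r : ℕ, (r : ℤ) = (n - k) % M :=
      ⟨((n - k) % M).toNat, Int.toNat_of_nonneg (Int.emod_nonneg _ hMpos.ne')⟩
    have hrM : r ≤ M := by
      have := Int.emod_lt_of_pos (n - k) hMpos
      omega
    have h5 := hP.int_mul ((n - k) / M) (k + r)
    have h6 : k + (r : ℤ) + ((n - k) / M) * M = n := by rw [hr]; exact hdm.symm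
    simp only [Int.cast_id] at h5
    rw [h6] at h5
    have h7 := hbd r hrM
    rw [← h5] at h7
    exact h7

end Pool.Agent.H285R3.Step508
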